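import Mathlib
import Pool.Agent.H432.TC.Main

/-!
Parametrisations of a rational curve with the parameters `0` and `∞` at given points.
-/

set_option autoImplicit false
set_option linter.unusedSectionVars false

namespace Pool.Agent.H432.EX

open NumberField IsDedekindDomain Height Module MvPolynomial Pool.Agent.N750 Pool.Agent.H432.RC
open Pool.Agent.H432.TC
open Pool.Agent.W180.OP (Pl av wt nrm le_nrm nrm_pos wt_nonneg exists_nrm nrm_nonneg)

variable {M d : ℕ}

/-- the parametrisation `τ ↦ φ(z + τ w)` -/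
noncomputable def lpol {R : Type} [CommRing R] (c : Fin M → Fin (d + 1) → R) (z w : Fin 2 → R) :
    Fin M → Polynomial R :=
  pc (fun l m => Polynomial.C (c l m)) (fun i => Polynomial.C (z i) + Polynomial.X *
    Polynomial.C (w i))

theorem lpol_deg {R : Type} [CommRing R] (c : Fin M → Fin (d + 1) → R) (z w : Fin 2 → R)
    (l : Fin M) : (lpol c z w l).natDegree ≤ d := by
  unfold lpol pc
  refine Polynomial.natDegree_sum_le_of_forall_le _ _ fun m _ => ?_
  refine (Polynomial.natDegree_C_mul_le _ _).trans ?_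
  refine (Polynomial.natDegree_mul_le).trans ?_
  have h0 : ∀ i, (Polynomial.C (z i) + Polynomial.X * Polynomial.C (w i)).natDegree ≤ 1 := by
    intro i
    refine (Polynomial.natDegree_add_le _ _).trans (max_le ?_ ?_)
    · rw [Polynomial.natDegree_C]
      exact Nat.zero_le _
    · exact (Polynomial.natDegree_mul_C_le _ _).trans Polynomial.natDegree_X_le
  have h1 : ∀ i (n : ℕ), ((Polynomial.C (z i) + Polynomial.X * Polynomial.C (w i)) ^ n).natDegree
      ≤ n := by
    intro i n
    refine (Polynomial.natDegree_pow_le).trans ?_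
    calc n * _ ≤ n * 1 := Nat.mul_le_mul_left _ (h0 i)
      _ = n := mul_one _
  have h2 := h1 0 m.1
  have h3 := h1 1 (d - m.1)
  have h4 := m.2
  exact (Nat.add_le_add h2 h3).trans (by omega)

theorem lpol_eval {R : Type} [CommRing R] (c : Fin M → Fin (d + 1) → R) (z w : Fin 2 → R)
    (T : R) (l : Fin M) : (lpol c z w l).eval T = pc c (fun i => z i + T * w i) l := by
  unfold lpol pc
  rw [Polynomial.eval_finsetSum]
  refine Finset.sum_congr rfl fun m _ => ?_
  simp only [Polynomial.eval_mul, Polynomial.eval_C, Polynomial.eval_pow, Polynomial.eval_add,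
    Polynomial.eval_X]

theorem lpol_map {R R' : Type} [CommRing R] [CommRing R'] (ψ : R →+* R')
    (c : Fin M → Fin (d + 1) → R) (z w : Fin 2 → R) (l : Fin M) :
    (lpol c z w l).map ψ = lpol (fun l m => ψ (c l m)) (fun i => ψ (z i)) (fun i => ψ (w i)) l := by
  unfold lpol pc
  rw [Polynomial.map_sum]
  refine Finset.sum_congr rfl fun m _ => ?_
  simp

theorem lpol_aeval {R R' : Type} [CommRing R] [CommRing R'] [Algebra R R']
    (c : Fin M → Fin (d + 1) → R) (z w : Fin 2 → R) (T : R') (l : Fin M) :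
    Polynomial.aeval T (lpol c z w l) =
      pc (fun l m => algebraMap R R' (c l m))
        (fun i => algebraMap R R' (z i) + T * algebraMap R R' (w i)) l := by
  rw [Polynomial.aeval_def, ← Polynomial.eval_map, lpol_map, lpol_eval]

theorem lpol_coeff {R : Type} [CommRing R] (c : Fin M → Fin (d + 1) → R) (z w : Fin 2 → R)
    (l : Fin M) : (lpol c z w l).coeff d = pc c w l := by
  unfold lpol pc
  rw [Polynomial.finsetSum_coeff]
  refine Finset.sum_congr rfl fun m _ => ?_
  rw [Polynomial.coeff_C_mul]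
  congr 1
  have h0 : ∀ i, (Polynomial.C (z i) + Polynomial.X * Polynomial.C (w i)).natDegree ≤ 1 := by
    intro i
    refine (Polynomial.natDegree_add_le _ _).trans (max_le ?_ ?_)
    · rw [Polynomial.natDegree_C]
      exact Nat.zero_le _
    · exact (Polynomial.natDegree_mul_C_le _ _).trans Polynomial.natDegree_X_le
  have h1 : ∀ i (n : ℕ), ((Polynomial.C (z i) + Polynomial.X * Polynomial.C (w i)) ^ n).natDegree
      ≤ n := by
    intro i n
    refine (Polynomial.natDegree_pow_le).trans ?_
    calc n * _ ≤ n * 1 := Nat.mul_le_mul_left _ (h0 i)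
      _ = n := mul_one _
  have h2 : ∀ i (n : ℕ), ((Polynomial.C (z i) + Polynomial.X * Polynomial.C (w i)) ^ n).coeff n
      = w i ^ n := by
    intro i n
    have h3 := Polynomial.coeff_pow_of_natDegree_le (h0 i) (m := n)
    rw [mul_one] at h3
    rw [h3]
    simp
  have h4 : m.1 + (d - m.1) = d := by
    have := m.2
    omega
  have h5 := Polynomial.coeff_mul_add_eq_of_natDegree_le (h1 0 m.1) (h1 1 (d - m.1))
  rw [h2, h2, h4] at h5
  exact h5

/-- forms without common zeros -/
def NZ {L : Type} [Field L] (c : Fin M → Fin (d + 1) → L) : Prop :=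
  ∀ (Ω : Type) [Field Ω] [Algebra L Ω] (z : Fin 2 → Ω), z ≠ 0 →
    pc (fun l m => algebraMap L Ω (c l m)) z ≠ 0

theorem NZ.map {L E : Type} [Field L] [Field E] [Algebra L E] {c : Fin M → Fin (d + 1) → L}
    (h : NZ c) : NZ (fun l m => algebraMap L E (c l m)) := by
  intro Ω _ _ z hz
  let _ : Algebra L Ω := ((algebraMap E Ω).comp (algebraMap L E)).toAlgebra
  exact h Ω z hz

theorem lvec_ne {Ω : Type} [Field Ω] (z w : Fin 2 → Ω) (h : z 0 * w 1 ≠ z 1 * w 0) (T : Ω) :
    (fun i => z i + T * w i) ≠ 0 := by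
  intro h0
  apply h
  have h1 : z 0 + T * w 0 = 0 := congrFun h0 0
  have h2 : z 1 + T * w 1 = 0 := congrFun h0 1
  linear_combination w 1 * h1 - w 0 * h2

theorem NZ.top {L : Type} [Field L] {c : Fin M → Fin (d + 1) → L} (h : NZ c) (z w : Fin 2 → L)
    (hzw : z 0 * w 1 ≠ z 1 * w 0) : Ideal.span (Set.range (lpol c z w)) = ⊤ := by
  refine span_top_of_nozero _ fun Ω _ _ T => ?_
  have h1 := h Ω (fun i => algebraMap L Ω (z i) + T * algebraMap L Ω (w i))
    (lvec_ne (fun i => algebraMap L Ω (z i)) (fun i => algebraMap L Ω (w i)) (by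
      intro h0
      apply hzw
      apply (algebraMap L Ω).injective
      rw [map_mul, map_mul]
      exact h0) T)
  obtain ⟨l, hl⟩ := Function.ne_iff.1 h1
  exact ⟨l, by rw [lpol_aeval]; exact hl⟩

theorem NZ.ne {L : Type} [Field L] {c : Fin M → Fin (d + 1) → L} (h : NZ c) (z : Fin 2 → L)
    (hz : z ≠ 0) : pc c z ≠ 0 := h L z hz

theorem NZ.lead {L : Type} [Field L] {c : Fin M → Fin (d + 1) → L} (h : NZ c) (z w : Fin 2 → L)
    (hw : w ≠ 0) : ∃ l, (lpol c z w l).coeff d ≠ 0 := by
  obtain ⟨l, hl⟩ := Function.ne_iff.1 (h.ne w hw)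
  exact ⟨l, by rw [lpol_coeff]; exact hl⟩

theorem ne_of_det {L : Type} [Field L] {z w : Fin 2 → L} (h : z 0 * w 1 ≠ z 1 * w 0) :
    z ≠ 0 ∧ w ≠ 0 := by
  constructor
  · rintro rfl
    exact h (by simp)
  · rintro rfl
    exact h (by simp)

/-- heights along forms without common zeros -/
theorem NZ.ht {K : Type} [Field K] [NumberField K] {c : Fin M → Fin (d + 1) → K} (h : NZ c)
    (z w : Fin 2 → K) (hzw : z 0 * w 1 ≠ z 1 * w 0) : ∃ C : ℝ, ∀ T : K,
      |logHeight (pc c (fun i => z i + T * w i)) - d * logHeight ![1, T]| ≤ C := by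
  obtain ⟨C1, h1⟩ := ev_ht_le (lpol c z w) d (lpol_deg c z w)
  obtain ⟨C2, h2⟩ := ev_ht_ge (lpol c z w) d (lpol_deg c z w) (h.top z w hzw)
    (h.lead z w (ne_of_det hzw).2)
  refine ⟨max C1 C2, fun T => ?_⟩
  have e1 : (fun j => (lpol c z w j).eval T) = pc c (fun i => z i + T * w i) :=
    funext fun l => lpol_eval c z w T l
  have h3 := h1 T (by
    rw [e1]
    exact h.ne _ (lvec_ne z w hzw T))
  have h4 := h2 T
  rw [e1] at h3 h4
  rw [abs_le]
  have := le_max_left C1 C2
  have := le_max_right C1 C2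
  constructor <;> linarith

/-- the vanishing of the form along the curve at a point -/
theorem form_eval {k R : Type} [Field k] [CommRing R] [Algebra k R]
    (P : MvPolynomial (Fin M) k) (c : Fin M → Fin (d + 1) → R) (z w : Fin 2 → R) (T : R) :
    (aeval (lpol c z w) P).eval T = aeval (pc c (fun i => z i + T * w i)) P := by
  have h2 := MvPolynomial.comp_aeval_apply (lpol c z w)
    ((Polynomial.aeval T : Polynomial R →ₐ[R] R).restrictScalars k) P
  have h3 : (fun l => ((Polynomial.aeval T : Polynomial R →ₐ[R] R).restrictScalars k)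
      (lpol c z w l)) = pc c (fun i => z i + T * w i) := by
    funext l
    exact (Polynomial.coe_aeval_eq_eval T ▸ lpol_eval c z w T l : _)
  rw [h3] at h2
  rw [← h2]
  rfl

end Pool.Agent.H432.EX
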