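import Mathlib
import Pool.Agent.H432.EX.Par

/-!
The contact of a rational curve with the divisor at a point.
-/

set_option autoImplicit false
set_option linter.unusedSectionVars false

namespace Pool.Agent.H432.EX

open NumberField IsDedekindDomain Height Module MvPolynomial Pool.Agent.N750 Pool.Agent.H432.RC
open Pool.Agent.H432.TC
open Pool.Agent.W180.OP (Pl av wt nrm le_nrm nrm_pos wt_nonneg exists_nrm nrm_nonneg)

variable {M g q w d : ℕ}

/-- the contact with the divisor at the point `z` is at least `e` -/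
def Meets {k Ω : Type} [Field k] [Field Ω] [Algebra k Ω]
    (F : Fin q → Fin w → MvPolynomial (Fin M) k) (c : Fin M → Fin (d + 1) → Ω) (z : Fin 2 → Ω)
    (e : ℕ) : Prop :=
  ∃ a : Fin q → ℕ, ∑ i, a i = e ∧ ∀ i j (y : Fin 2 → Ω),
    Polynomial.X ^ a i ∣ aeval (lpol c z y) (F i j)

section lin

variable {k K : Type} [Field k] [Field K] [CharZero K] [Algebra k K]

/-- change of the direction -/
theorem form_lin {P : MvPolynomial (Fin M) k} {e : ℕ} (hP : P.IsHomogeneous e)
    (c : Fin M → Fin (d + 1) → K) (z y : Fin 2 → K) (α β : K) :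
    aeval (lpol c z (fun i => α * z i + β * y i)) P = ∑ n ∈ Finset.range (e * d + 1),
      Polynomial.C ((aeval (lpol c z y) P).coeff n) *
        ((1 + Polynomial.C α * Polynomial.X) ^ (e * d - n) *
          (Polynomial.C β * Polynomial.X) ^ n) := by
  refine Polynomial.funext fun T => ?_
  rw [form_eval, Polynomial.eval_finsetSum]
  simp only [Polynomial.eval_mul, Polynomial.eval_C, Polynomial.eval_pow, Polynomial.eval_add,
    Polynomial.eval_X, Polynomial.eval_one]
  have hdeg : (aeval (lpol c z y) P).natDegree < e * d + 1 :=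
    Nat.lt_succ_of_le (aeval_deg hP _ (lpol_deg c z y))
  by_cases hu : 1 + α * T = 0
  · have h1 : (fun i => z i + T * (α * z i + β * y i)) = fun i => (β * T) * y i := by
      funext i
      linear_combination (z i) * hu
    rw [h1, pc_smul, aeval_hom hP, Finset.sum_range_succ, Nat.sub_self, pow_zero, one_mul]
    have h2 : ∑ n ∈ Finset.range (e * d), (aeval (lpol c z y) P).coeff n *
        ((1 + α * T) ^ (e * d - n) * (β * T) ^ n) = 0 := by
      refine Finset.sum_eq_zero fun n hn => ?_
      have h3 := Finset.mem_range.1 hn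
      rw [hu, zero_pow (by omega), zero_mul, mul_zero]
    rw [h2, zero_add, aeval_top hP _ (lpol_deg c z y)]
    have h4 : (fun l => (lpol c z y l).coeff d) = pc c y := funext fun l => lpol_coeff c z y l
    rw [h4, ← pow_mul, mul_comm d e]
    ring
  · set u := 1 + α * T with hu'
    have h1 : (fun i => z i + T * (α * z i + β * y i)) =
        fun i => u * (fun i => z i + (β * T / u) * y i) i := by
      funext i
      simp only
      field_simp
      rw [hu']
      ring
    rw [h1, pc_smul, aeval_hom hP, ← form_eval, Polynomial.eval_eq_sum_range' hdeg,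
      Finset.mul_sum]
    refine Finset.sum_congr rfl fun n hn => ?_
    have h3 := Finset.mem_range.1 hn
    have h4 : (u ^ d) ^ e = u ^ (e * d - n) * u ^ n := by
      rw [← pow_mul, ← pow_add]
      congr 1
      have : d * e = e * d := mul_comm _ _
      omega
    rw [h4, div_pow]
    field_simp

/-- reversal -/
theorem form_rev {P : MvPolynomial (Fin M) k} {e : ℕ} (hP : P.IsHomogeneous e)
    (c : Fin M → Fin (d + 1) → K) (z y : Fin 2 → K) :
    aeval (lpol c z y) P = ∑ n ∈ Finset.range (e * d + 1),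
      Polynomial.C ((aeval (lpol c y z) P).coeff n) * Polynomial.X ^ (e * d - n) := by
  refine Polynomial.funext fun T => ?_
  rw [form_eval, Polynomial.eval_finsetSum]
  simp only [Polynomial.eval_mul, Polynomial.eval_C, Polynomial.eval_pow, Polynomial.eval_X]
  have hdeg : (aeval (lpol c y z) P).natDegree < e * d + 1 :=
    Nat.lt_succ_of_le (aeval_deg hP _ (lpol_deg c y z))
  by_cases hT : T = 0
  · subst hT
    have h1 : (fun i => z i + 0 * y i) = z := by
      funext i
      ring
    rw [h1, Finset.sum_range_succ, Nat.sub_self, pow_zero, mul_one]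
    have h2 : ∑ n ∈ Finset.range (e * d), (aeval (lpol c y z) P).coeff n *
        (0 : K) ^ (e * d - n) = 0 := by
      refine Finset.sum_eq_zero fun n hn => ?_
      have h3 := Finset.mem_range.1 hn
      rw [zero_pow (by omega), mul_zero]
    rw [h2, zero_add, aeval_top hP _ (lpol_deg c y z)]
    congr 2
    funext l
    exact (lpol_coeff c y z l).symm
  · have h1 : (fun i => z i + T * y i) = fun i => T * (fun i => y i + T⁻¹ * z i) i := by
      funext i
      simp only
      field_simp
      ring
    rw [h1, pc_smul, aeval_hom hP, ← form_eval, Polynomial.eval_eq_sum_range' hdeg,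
      Finset.mul_sum]
    refine Finset.sum_congr rfl fun n hn => ?_
    have h3 := Finset.mem_range.1 hn
    have h4 : (T ^ d) ^ e = T ^ (e * d - n) * T ^ n := by
      rw [← pow_mul, ← pow_add]
      congr 1
      have : d * e = e * d := mul_comm _ _
      omega
    rw [h4, inv_pow]
    field_simp

/-- the order does not depend on the direction -/
theorem dvd_dir {P : MvPolynomial (Fin M) k} {e : ℕ} (hP : P.IsHomogeneous e)
    (c : Fin M → Fin (d + 1) → K) (z y : Fin 2 → K) (hzy : z 0 * y 1 ≠ z 1 * y 0) (a : ℕ)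
    (h : Polynomial.X ^ a ∣ aeval (lpol c z y) P) (x : Fin 2 → K) :
    Polynomial.X ^ a ∣ aeval (lpol c z x) P := by
  set D := z 0 * y 1 - z 1 * y 0 with hD
  have hD0 : D ≠ 0 := sub_ne_zero.2 hzy
  obtain ⟨α, β, hx⟩ : ∃ α β : K, x = fun i => α * z i + β * y i := by
    refine ⟨(x 0 * y 1 - x 1 * y 0) / D, (z 0 * x 1 - z 1 * x 0) / D, ?_⟩
    funext i
    fin_cases i
    · show x 0 = (x 0 * y 1 - x 1 * y 0) / D * z 0 + (z 0 * x 1 - z 1 * x 0) / D * y 0
      field_simp
      rw [hD]
      ring
    · show x 1 = (x 0 * y 1 - x 1 * y 0) / D * z 1 + (z 0 * x 1 - z 1 * x 0) / D * y 1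
      field_simp
      rw [hD]
      ring
  rw [hx, form_lin hP]
  refine Finset.dvd_sum fun n _ => ?_
  by_cases hn : n < a
  · rw [Polynomial.X_pow_dvd_iff.1 h n hn, map_zero, zero_mul]
    exact dvd_zero _
  · refine Dvd.dvd.mul_left ?_ _
    refine Dvd.dvd.mul_left ?_ _
    rw [mul_pow]
    refine Dvd.dvd.mul_left ?_ _
    exact pow_dvd_pow _ (not_lt.1 hn)

/-- the degree of the reversed form -/
theorem deg_rev {P : MvPolynomial (Fin M) k} {e : ℕ} (hP : P.IsHomogeneous e)
    (c : Fin M → Fin (d + 1) → K) (z y : Fin 2 → K) (a : ℕ)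
    (h : Polynomial.X ^ a ∣ aeval (lpol c y z) P) :
    (aeval (lpol c z y) P).natDegree ≤ e * d - a := by
  rw [form_rev hP]
  refine Polynomial.natDegree_sum_le_of_forall_le _ _ fun n _ => ?_
  by_cases hn : n < a
  · rw [Polynomial.X_pow_dvd_iff.1 h n hn, map_zero, zero_mul, Polynomial.natDegree_zero]
    exact Nat.zero_le _
  · refine (Polynomial.natDegree_C_mul_X_pow_le _ _).trans ?_
    omega

end lin

/-- the contacts at the crossings -/
theorem Cro.meets {k K : Type} [Field k] [Field K] [CharZero K] [Algebra k K]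
    {F : Fin q → Fin w → MvPolynomial (Fin M) k} {δ : Fin q → ℕ}
    (hF : ∀ i j, (F i j).IsHomogeneous (δ i)) {c : Fin M → Fin (d + 1) → K} {r : K}
    {ν : ℕ} {b : Fin ν → K} {m : Fin ν → Fin q → ℕ} {Q : Fin q → Fin w → Polynomial K}
    (h : Cro F δ (cpol r c) d ν b m Q) (a : Fin ν) :
    Meets F c ![r * b a + 1, b a] (∑ i, m a i) := by
  refine ⟨m a, rfl, fun i j y => ?_⟩
  refine dvd_dir (hF i j) c ![r * b a + 1, b a] ![r, 1] (by
    show (r * b a + 1) * 1 ≠ b a * r
    intro h0
    apply one_ne_zero (α := K)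
    linear_combination h0) (m a i) ?_ y
  have h1 : (Polynomial.X - Polynomial.C (b a)) ^ m a i ∣ aeval (cpol r c) (F i j) := by
    rw [h.fac i j]
    exact Dvd.dvd.mul_right (Finset.dvd_prod_of_mem _ (Finset.mem_univ a)) _
  obtain ⟨R, hR⟩ := h1
  refine ⟨R.comp (Polynomial.X + Polynomial.C (b a)), ?_⟩
  refine Polynomial.funext fun T => ?_
  rw [form_eval]
  have h2 : (fun i => ![r * b a + 1, b a] i + T * ![r, 1] i) =
      ![r * (T + b a) + 1, T + b a] := by
    funext i
    fin_cases i
    · show r * b a + 1 + T * r = r * (T + b a) + 1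
      ring
    · show b a + T * 1 = T + b a
      ring
  have h3 : pc c ![r * (T + b a) + 1, T + b a] = fun l => (cpol r c l).eval (T + b a) :=
    funext fun l => (cpol_eval r c _ l).symm
  rw [h2, h3, ← aeval_eval, hR]
  simp only [Polynomial.eval_mul, Polynomial.eval_pow, Polynomial.eval_sub, Polynomial.eval_X,
    Polynomial.eval_C, Polynomial.eval_comp, Polynomial.eval_add, add_sub_cancel_right]

/-- descent of the points of contact -/
theorem Meets.descend {k E : Type} [Field k] [Field E] [Algebra k E]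
    {G : Fin g → MvPolynomial (Fin M) k}
    {F : Fin q → Fin w → MvPolynomial (Fin M) k} {δ : Fin q → ℕ}
    (hF : ∀ i j, (F i j).IsHomogeneous (δ i)) {c : Fin M → Fin (d + 1) → E}
    (hc : CurveOK G F c) {Ω : Type} [Field Ω] [Algebra k Ω] [Algebra E Ω] [IsScalarTower k E Ω]
    {z : Fin 2 → Ω} (hz : z ≠ 0) {e : ℕ} (he : 1 ≤ e)
    (h : Meets F (fun l m => algebraMap E Ω (c l m)) z e) :
    ∃ (y : Fin 2 → E) (u : Ω), u ≠ 0 ∧ z = (fun i => u * algebraMap E Ω (y i)) ∧
      Meets F c y e := by
  obtain ⟨a, ha, hdvd⟩ := h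
  obtain ⟨i0, -, hi0⟩ : ∃ i ∈ Finset.univ, a i ≠ 0 := by
    by_contra hcon
    push Not at hcon
    rw [Finset.sum_eq_zero hcon] at ha
    omega
  obtain ⟨y, u, hy⟩ := hc.rat Ω z hz i0 fun j => by
    have h1 := hdvd i0 j 0
    have h2 : Polynomial.X ∣ aeval (lpol (fun l m => algebraMap E Ω (c l m)) z 0) (F i0 j) :=
      (dvd_pow_self _ hi0).trans h1
    obtain ⟨R, hR⟩ := h2
    have h3 := congrArg (Polynomial.eval 0) hR
    rw [form_eval, Polynomial.eval_mul, Polynomial.eval_X, zero_mul] at h3
    have h4 : (fun i => z i + 0 * (0 : Fin 2 → Ω) i) = z := by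
      funext i
      simp
    rw [h4] at h3
    exact h3
  have hu : u ≠ 0 := by
    rintro rfl
    apply hz
    rw [hy]
    funext i
    simp
  refine ⟨y, u, hu, hy, a, ha, fun i j x => ?_⟩
  have h1 := hdvd i j (fun t => u * algebraMap E Ω (x t))
  have h2 : lpol (fun l m => algebraMap E Ω (c l m)) z (fun t => u * algebraMap E Ω (x t)) =
      fun l => Polynomial.C (u ^ d) * (lpol c y x l).map (algebraMap E Ω) := by
    funext l
    rw [lpol_map, map_pow]
    have e1 : (fun i => Polynomial.C (z i) + Polynomial.X * Polynomial.C (u * algebraMap E Ω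
        (x i))) = fun i => Polynomial.C u * (Polynomial.C (algebraMap E Ω (y i)) +
          Polynomial.X * Polynomial.C (algebraMap E Ω (x i))) := by
      funext i
      rw [hy]
      simp only [map_mul]
      ring
    unfold lpol
    rw [e1]
    exact congrFun (pc_smul _ (Polynomial.C u) _) l
  rw [h2] at h1
  have h3 : aeval (fun l => Polynomial.C (u ^ d) * (lpol c y x l).map (algebraMap E Ω)) (F i j) =
      Polynomial.C ((u ^ d) ^ δ i) * (aeval (lpol c y x) (F i j)).map (algebraMap E Ω) := by
    rw [aeval_hom (hF i j), ← Polynomial.C_pow]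
    congr 1
    have e2 := MvPolynomial.comp_aeval_apply (lpol c y x)
      ((Polynomial.mapAlgHom (IsScalarTower.toAlgHom k E Ω)) : Polynomial E →ₐ[k] Polynomial Ω)
      (F i j)
    exact e2.symm
  rw [h3, Polynomial.X_pow_dvd_iff] at h1
  rw [Polynomial.X_pow_dvd_iff]
  intro n hn
  have h4 := h1 n hn
  rw [Polynomial.coeff_C_mul, Polynomial.coeff_map] at h4
  have h5 := (mul_eq_zero.1 h4).resolve_left (pow_ne_zero _ (pow_ne_zero _ hu))
  exact (map_eq_zero _).1 h5

end Pool.Agent.H432.EX
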