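import Mathlib
import Pool.Agent.H432.EX.Cnt

/-!
The Gauss map along a rational curve in terms of binary forms without common zeros.
-/

set_option autoImplicit false
set_option linter.unusedSectionVars false

namespace Pool.Agent.H432.EX

open NumberField IsDedekindDomain Height Module MvPolynomial Pool.Agent.N750 Pool.Agent.H432.RC
open Pool.Agent.H432.TC
open Pool.Agent.W180.OP (Pl av wt nrm le_nrm nrm_pos wt_nonneg exists_nrm nrm_nonneg)

variable {M g n' d : ℕ}

/-- the values of the binary forms with the coefficients `b` -/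
def gv {ι R : Type} [CommRing R] {m : ℕ} (b : ι → Fin (m + 1) → R) (z : Fin 2 → R) : ι → R :=
  fun J => ∑ n, b J n * (z 0 ^ n.1 * z 1 ^ (m - n.1))

/-- the forms `b` have no common zeros and give the Plücker coordinates of the tangent spaces
along the curve -/
def GF {k L : Type} [Field k] [Field L] [Algebra k L] {m : ℕ}
    (G : Fin g → MvPolynomial (Fin M) k) (c : Fin M → Fin (d + 1) → L)
    (b : (Fin (n' + 2) → Fin M) → Fin (m + 1) → L) : Prop :=
  ∀ (Ω : Type) [Field Ω] [Algebra k Ω] [Algebra L Ω] [IsScalarTower k L Ω] (z : Fin 2 → Ω), z ≠ 0 →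
    ∃ A, IsTB (p := n' + 2) G (pc (fun l m => algebraMap L Ω (c l m)) z) A ∧
      gv (fun J m => algebraMap L Ω (b J m)) z = mv A

theorem mv_ne {L : Type} [Field L] {p : ℕ} (A : Fin M → Fin p → L)
    (hA : LinearIndependent L (fun c : Fin p => fun l => A l c)) : mv A ≠ 0 := by
  obtain ⟨J, hJ⟩ := exists_minor A hA
  exact fun h => hJ (congrFun h J)

/-- the minors of two bases of the tangent space are proportional -/
theorem mv_prop {k L : Type} [Field k] [Field L] [CharZero L] [Algebra k L]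
    {G : Fin g → MvPolynomial (Fin M) k} {x : Fin M → L} (hdim : finrank L (TS G x) = n' + 2)
    {A A' : Fin M → Fin (n' + 2) → L} (hA : IsTB G x A) (hA' : IsTB G x A') :
    ∃ t : L, t ≠ 0 ∧ mv A' = t • mv A := by
  obtain ⟨t, ht⟩ := alt_unique (L := L) A hA.1 (fun i l => aeval x (pderiv l (G i)))
    (fun v hv => span_TB hA hdim v hv) (mv A') (fun J i j hij => mv_swap A' J i j hij)
    (fun i J => det_row_zero A' _ (fun c => mem_TS.1 (hA'.2 c) i) J)
  refine ⟨t, ?_, funext ht⟩
  rintro rfl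
  apply mv_ne A' hA'.1
  funext J
  rw [ht J, zero_mul]
  rfl

/-- a solution of the equations which generates the unit ideal -/
theorem GC_top {k K : Type} [Field k] [Field K] [Algebra k K]
    (G : Fin g → MvPolynomial (Fin M) k) (φ : Fin M → Polynomial K) (D : ℕ)
    (Γ : (Fin (n' + 2) → Fin M) → Polynomial K) (h : GC G φ D Γ) :
    ∃ Γ' : (Fin (n' + 2) → Fin M) → Polynomial K, GC G φ D Γ' ∧
      ∀ (Ω : Type) [Field Ω] [Algebra K Ω] (T : Ω), ∃ J, Polynomial.aeval T (Γ' J) ≠ 0 := by
  classical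
  obtain ⟨⟨J0, hJ0⟩, hdeg, halt, hcontr⟩ := h
  let e := Fintype.equivFin (Fin (n' + 2) → Fin M)
  obtain ⟨p, Q, a, hp, hPQ, hPa, hQ⟩ := exists_gcd (fun i => Γ (e.symm i))
    ⟨e J0, by rw [Equiv.symm_apply_apply]; exact hJ0⟩
  have hΓ : ∀ J, Γ J = p * Q (e J) := by
    intro J
    rw [← hPQ, Equiv.symm_apply_apply]
  have hp0 : p ≠ 0 := hp.ne_zero
  refine ⟨fun J => Q (e J), ⟨⟨J0, fun h0 => hJ0 (by rw [hΓ]; simp only at h0; rw [h0, mul_zero])⟩,
    fun J => ?_, fun J i j hij => ?_, fun i J => ?_⟩, fun Ω _ _ T => ?_⟩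
  · by_cases h0 : Q (e J) = 0
    · simp only [h0, Polynomial.natDegree_zero]
      exact Nat.zero_le _
    · have h1 := Polynomial.natDegree_mul hp0 h0
      rw [← hΓ] at h1
      have h2 := hdeg J
      show (Q (e J)).natDegree ≤ D
      omega
  · have h1 := halt J i j hij
    rw [hΓ, hΓ, ← mul_neg] at h1
    exact mul_left_cancel₀ hp0 h1
  · have h1 := hcontr i J
    have h2 : p * ∑ l, aeval φ (pderiv l (G i)) * Q (e (Function.update J 0 l)) = 0 := by
      rw [← h1, Finset.mul_sum]
      refine Finset.sum_congr rfl fun l _ => ?_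
      rw [hΓ]
      ring
    exact (mul_eq_zero.1 h2).resolve_left hp0
  · obtain ⟨a, ha⟩ := exists_bezout Q hQ
    by_contra hcon
    push Not at hcon
    have h1 := congrArg (Polynomial.aeval T) ha
    rw [map_sum, map_one] at h1
    have h2 : ∑ j, Polynomial.aeval T (a j * Q j) = 0 := by
      refine Finset.sum_eq_zero fun j _ => ?_
      have h3 := hcon (e.symm j)
      simp only [Equiv.apply_symm_apply] at h3
      rw [map_mul, h3, mul_zero]
    rw [h2] at h1
    exact zero_ne_one h1

/-- **existence of the polynomials** -/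
theorem exists_GC {k L : Type} [Field k] [Field L] [CharZero L] [Algebra k L]
    (G : Fin g → MvPolynomial (Fin M) k) (hsm : Sm (n' + 1) G) (φ : Fin M → Polynomial L)
    (hφ0 : ∃ l, φ l ≠ 0) (hφG : ∀ i, aeval φ (G i) = 0) :
    ∃ (D : ℕ) (Γ : (Fin (n' + 2) → Fin M) → Polynomial L), GC G φ D Γ := by
  classical
  let 𝔽 := FractionRing (Polynomial L)
  have hinj : Function.Injective (algebraMap (Polynomial L) 𝔽) := IsFractionRing.injective _ _
  set x : Fin M → 𝔽 := fun l => algebraMap (Polynomial L) 𝔽 (φ l) with hx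
  have hcomm : ∀ P : MvPolynomial (Fin M) k, aeval x P = algebraMap (Polynomial L) 𝔽 (aeval φ P) :=
    fun P => aeval_algebraMap_apply 𝔽 φ P
  have hx0 : x ≠ 0 := by
    obtain ⟨l, hl⟩ := hφ0
    intro h
    apply hl
    apply hinj
    rw [map_zero]
    exact congrFun h l
  have hdim : finrank 𝔽 (TS G x) = n' + 2 := hsm 𝔽 x hx0 fun i => by rw [hcomm, hφG, map_zero]
  obtain ⟨A, hA⟩ : ∃ A : Fin M → Fin (n' + 2) → 𝔽, IsTB G x A := by
    let B := Module.finBasisOfFinrankEq 𝔽 (TS G x) hdim
    refine ⟨fun l c => (B c).1 l, ?_, fun c => (B c).2⟩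
    exact B.linearIndependent.map' (TS G x).subtype (Submodule.ker_subtype _)
  obtain ⟨b, hb⟩ := IsLocalization.exist_integer_multiples_of_finite
    (nonZeroDivisors (Polynomial L)) (fun J : Fin (n' + 2) → Fin M => mv A J)
  choose Γ hΓ using hb
  have hb0 : (b : Polynomial L) ≠ 0 := nonZeroDivisors.ne_zero b.2
  have hb1 : algebraMap (Polynomial L) 𝔽 b ≠ 0 := fun h => hb0 (hinj (by rw [h, map_zero]))
  have hΓ' : ∀ J, algebraMap (Polynomial L) 𝔽 (Γ J) = algebraMap (Polynomial L) 𝔽 b * mv A J := by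
    intro J
    rw [hΓ J, Algebra.smul_def]
  refine ⟨Finset.univ.sup fun J => (Γ J).natDegree, Γ, ?_, fun J => Finset.le_sup
    (f := fun J => (Γ J).natDegree) (Finset.mem_univ J), fun J i j hij => ?_, fun i J => ?_⟩
  · obtain ⟨J, hJ⟩ := exists_minor A hA.1
    refine ⟨J, fun h => hJ ?_⟩
    have h1 := hΓ' J
    rw [h, map_zero] at h1
    exact (mul_eq_zero.1 h1.symm).resolve_left hb1
  · apply hinj
    rw [map_neg, hΓ', hΓ', mv_swap A J i j hij]
    ring
  · apply hinj
    rw [map_sum, map_zero]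
    have h1 := det_row_zero A (fun l => aeval x (pderiv l (G i)))
      (fun c => mem_TS.1 (hA.2 c) i) J
    have h2 : ∑ l, algebraMap (Polynomial L) 𝔽 (aeval φ (pderiv l (G i)) *
        Γ (Function.update J 0 l)) = algebraMap (Polynomial L) 𝔽 b *
        ∑ l, aeval x (pderiv l (G i)) * (Matrix.of fun x c => A (Function.update J 0 l x) c).det := by
      rw [Finset.mul_sum]
      refine Finset.sum_congr rfl fun l _ => ?_
      rw [map_mul, hΓ', hcomm]
      have h3 : mv A (Function.update J 0 l) =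
        (Matrix.of fun x c => A (Function.update J 0 l x) c).det := rfl
      rw [h3]
      ring
    rw [h2, h1, mul_zero]

theorem gv_smul {ι R : Type} [CommRing R] {m : ℕ} (b : ι → Fin (m + 1) → R) (a : R)
    (z : Fin 2 → R) (l : ι) : gv b (fun i => a * z i) l = a ^ m * gv b z l := by
  unfold gv
  rw [Finset.mul_sum]
  refine Finset.sum_congr rfl fun n _ => ?_
  have h1 : a ^ m = a ^ n.1 * a ^ (m - n.1) := by
    rw [← pow_add]
    congr 1
    have := n.2
    omega
  rw [h1, mul_pow, mul_pow]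
  ring

/-- **the Gauss map is given by binary forms without common zeros** -/
theorem exists_gauss {k L : Type} [Field k] [Field L] [CharZero L] [Algebra k L]
    {G : Fin g → MvPolynomial (Fin M) k} {e : Fin g → ℕ} (hG : ∀ i, (G i).IsHomogeneous (e i))
    (hsm : Sm (n' + 1) G) {c : Fin M → Fin (d + 1) → L} (hnz : NZ c)
    (honX : ∀ (z : Fin 2 → L) (i : Fin g), aeval (pc c z) (G i) = 0) :
    ∃ (m : ℕ) (b : (Fin (n' + 2) → Fin M) → Fin (m + 1) → L), GF G c b := by
  classical
  have hdet : (![1, 0] : Fin 2 → L) 0 * (![0, 1] : Fin 2 → L) 1 ≠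
      (![1, 0] : Fin 2 → L) 1 * (![0, 1] : Fin 2 → L) 0 := by
    simp
  set φ := lpol c ![1, 0] ![0, 1] with hφ
  have hφG : ∀ i, aeval φ (G i) = 0 := by
    intro i
    refine Polynomial.funext fun T => ?_
    rw [form_eval, honX, Polynomial.eval_zero]
  have hφ0 : ∃ l, φ l ≠ 0 := by
    obtain ⟨l, hl⟩ := hnz.lead ![1, 0] ![0, 1] (ne_of_det hdet).2
    exact ⟨l, fun h => hl (by rw [← hφ, h, Polynomial.coeff_zero])⟩
  obtain ⟨D, Γ0, hΓ0⟩ := exists_GC G hsm φ hφ0 hφG
  obtain ⟨Γ, ⟨⟨J0, hJ0⟩, -, halt, hcontr⟩, hne⟩ := GC_top G φ D Γ0 hΓ0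
  obtain ⟨J1, -, hJ1⟩ := Finset.exists_mem_eq_sup Finset.univ ⟨J0, Finset.mem_univ _⟩
    (fun J => (Γ J).natDegree)
  set m := Finset.univ.sup fun J => (Γ J).natDegree with hm
  have hdeg : ∀ J, (Γ J).natDegree ≤ m := fun J => Finset.le_sup
    (f := fun J => (Γ J).natDegree) (Finset.mem_univ J)
  have hlead : ∃ J, (Γ J).coeff m ≠ 0 := by
    by_cases hm0 : m = 0
    · refine ⟨J0, fun h => hJ0 ?_⟩
      have h1 := hdeg J0
      rw [hm0] at h h1
      rw [Polynomial.eq_C_of_natDegree_eq_zero (Nat.le_zero.1 h1), h, map_zero]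
    · refine ⟨J1, ?_⟩
      rw [hJ1]
      refine Polynomial.leadingCoeff_ne_zero.2 fun h => hm0 ?_
      rw [hJ1, h, Polynomial.natDegree_zero]
  refine ⟨m, fun J n => (Γ J).coeff (m - n.1), ?_⟩
  intro Ω _ _ _ _ z hz
  have hcΩ : CharZero Ω := charZero_of_injective_algebraMap (algebraMap L Ω).injective
  set cΩ : Fin M → Fin (d + 1) → Ω := fun l m => algebraMap L Ω (c l m) with hcΩd
  set bΩ : (Fin (n' + 2) → Fin M) → Fin (m + 1) → Ω :=
    fun J n => algebraMap L Ω ((Γ J).coeff (m - n.1)) with hbΩ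
  -- the values at `(1, T)`
  have hval : ∀ (T : Ω) J, gv bΩ ![1, T] J = Polynomial.aeval T (Γ J) := by
    intro T J
    rw [Polynomial.aeval_eq_sum_range' (Nat.lt_succ_of_le (hdeg J)),
      ← Finset.sum_range_reflect, ← Fin.sum_univ_eq_sum_range
        (fun n => (Γ J).coeff (m + 1 - 1 - n) • T ^ (m + 1 - 1 - n)) (m + 1)]
    unfold gv
    refine Finset.sum_congr rfl fun n _ => ?_
    rw [Algebra.smul_def]
    simp only [Matrix.cons_val_zero, Matrix.cons_val_one, one_pow, one_mul, Nat.add_sub_cancel]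
    rfl
  have hval0 : ∀ J, gv bΩ ![0, 1] J = algebraMap L Ω ((Γ J).coeff m) := by
    intro J
    unfold gv
    rw [Finset.sum_eq_single (0 : Fin (m + 1))]
    · simp [hbΩ]
    · intro n _ hn
      have : (n : ℕ) ≠ 0 := fun h => hn (Fin.ext h)
      simp [this]
    · intro h
      exact absurd (Finset.mem_univ _) h
  have hz01 : (∃ (u T : Ω), u ≠ 0 ∧ z = fun i => u * ![1, T] i) ∨
      ∃ u : Ω, u ≠ 0 ∧ z = fun i => u * ![0, 1] i := by
    by_cases h0 : z 0 = 0
    · right
      refine ⟨z 1, fun h1 => hz ?_, ?_⟩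
      · funext i
        fin_cases i
        · exact h0
        · exact h1
      · funext i
        fin_cases i
        · show z 0 = z 1 * 0
          rw [h0, mul_zero]
        · show z 1 = z 1 * 1
          rw [mul_one]
    · left
      refine ⟨z 0, z 1 / z 0, h0, ?_⟩
      funext i
      fin_cases i
      · show z 0 = z 0 * 1
        rw [mul_one]
      · show z 1 = z 0 * (z 1 / z 0)
        field_simp
  have hne' : gv bΩ z ≠ 0 := by
    rcases hz01 with ⟨u, T, hu, hz'⟩ | ⟨u, hu, hz'⟩
    · obtain ⟨J, hJ⟩ := hne Ω T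
      intro h
      apply hJ
      have h1 := congrFun h J
      rw [hz', gv_smul, hval] at h1
      exact (mul_eq_zero.1 h1).resolve_left (pow_ne_zero _ hu)
    · obtain ⟨J, hJ⟩ := hlead
      intro h
      apply hJ
      have h1 := congrFun h J
      rw [hz', gv_smul, hval0] at h1
      exact (map_eq_zero _).1 ((mul_eq_zero.1 h1).resolve_left (pow_ne_zero _ hu))
  -- the relations
  have halt' : ∀ J (i j : Fin (n' + 2)), i ≠ j → gv bΩ z (J ∘ Equiv.swap i j) = -gv bΩ z J := by
    intro J i j hij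
    unfold gv
    rw [← Finset.sum_neg_distrib]
    refine Finset.sum_congr rfl fun n _ => ?_
    rw [hbΩ]
    simp only
    rw [halt J i j hij, Polynomial.coeff_neg, map_neg]
    ring
  have hφT : ∀ T : Ω, (fun l => Polynomial.aeval T (φ l)) = pc cΩ ![1, T] := by
    intro T
    funext l
    rw [hφ, lpol_aeval]
    congr 1
    funext i
    fin_cases i
    · show algebraMap L Ω 1 + T * algebraMap L Ω 0 = 1
      simp
    · show algebraMap L Ω 0 + T * algebraMap L Ω 1 = T
      simp
  have haev : ∀ (T : Ω) (P : MvPolynomial (Fin M) k), Polynomial.aeval T (aeval φ P) =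
      aeval (pc cΩ ![1, T]) P := by
    intro T P
    have h2 := MvPolynomial.comp_aeval_apply φ
      ((Polynomial.aeval T : Polynomial L →ₐ[L] Ω).restrictScalars k) P
    have h3 : (fun l => ((Polynomial.aeval T : Polynomial L →ₐ[L] Ω).restrictScalars k) (φ l)) =
        pc cΩ ![1, T] := hφT T
    rw [h3] at h2
    exact h2
  have hφd : ∀ l, (φ l).natDegree ≤ d := fun l => lpol_deg c _ _ l
  have htop : ∀ {P : MvPolynomial (Fin M) k} {a : ℕ}, P.IsHomogeneous a →
      algebraMap L Ω ((aeval φ P).coeff (a * d)) = aeval (pc cΩ ![0, 1]) P := by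
    intro P a hP
    rw [aeval_top hP φ hφd, ← aeval_algebraMap_apply Ω]
    congr 2
    funext l
    rw [hφ]
    show algebraMap L Ω ((lpol c ![1, 0] ![0, 1] l).coeff d) = _
    rw [lpol_coeff]
    have h1 : pc cΩ (fun i => algebraMap L Ω (![(0 : L), 1] i)) l =
      algebraMap L Ω (pc c ![0, 1] l) := congrFun (pc_map (algebraMap L Ω) c ![0, 1]) l
    rw [← h1]
    congr 2
    funext i
    fin_cases i
    · exact map_zero _
    · exact map_one _
  have hcontr' : ∀ i (J : Fin (n' + 2) → Fin M), ∑ l, aeval (pc cΩ z) (pderiv l (G i)) *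
      gv bΩ z (Function.update J 0 l) = 0 := by
    intro i J
    have hpd : ∀ l, (pderiv l (G i)).IsHomogeneous (e i - 1) := fun l => (hG i).pderiv
    rcases hz01 with ⟨u, T, hu, hz'⟩ | ⟨u, hu, hz'⟩
    · have h1 := congrArg (Polynomial.aeval T) (hcontr i J)
      rw [map_sum, map_zero] at h1
      have h2 : ∑ l, aeval (pc cΩ z) (pderiv l (G i)) * gv bΩ z (Function.update J 0 l) =
          ((u ^ d) ^ (e i - 1) * u ^ m) * ∑ l, Polynomial.aeval T (aeval φ (pderiv l (G i)) *
            Γ (Function.update J 0 l)) := by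
        rw [Finset.mul_sum]
        refine Finset.sum_congr rfl fun l _ => ?_
        rw [hz', pc_smul, aeval_hom (hpd l), gv_smul, map_mul, haev, hval]
        ring
      rw [h2, h1, mul_zero]
    · have h1 := congrArg (fun p => algebraMap L Ω (p.coeff ((e i - 1) * d + m))) (hcontr i J)
      simp only [Polynomial.finsetSum_coeff, Polynomial.coeff_zero, map_zero, map_sum] at h1
      have h2 : ∑ l, aeval (pc cΩ z) (pderiv l (G i)) * gv bΩ z (Function.update J 0 l) =
          ((u ^ d) ^ (e i - 1) * u ^ m) * ∑ l, algebraMap L Ω ((aeval φ (pderiv l (G i)) *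
            Γ (Function.update J 0 l)).coeff ((e i - 1) * d + m)) := by
        rw [Finset.mul_sum]
        refine Finset.sum_congr rfl fun l _ => ?_
        rw [Polynomial.coeff_mul_add_eq_of_natDegree_le (aeval_deg (hpd l) φ hφd) (hdeg _),
          hz', pc_smul, aeval_hom (hpd l), gv_smul, map_mul, htop (hpd l), hval0]
        ring
      rw [h2, h1, mul_zero]
  -- the point
  have hx0 : pc cΩ z ≠ 0 := hnz Ω z hz
  have hxG : ∀ i, aeval (pc cΩ z) (G i) = 0 := by
    intro i
    rcases hz01 with ⟨u, T, hu, hz'⟩ | ⟨u, hu, hz'⟩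
    · rw [hz', pc_smul, aeval_hom (hG i), ← haev, hφG, map_zero, mul_zero]
    · rw [hz', pc_smul, aeval_hom (hG i), ← htop (hG i), hφG, Polynomial.coeff_zero, map_zero,
        mul_zero]
  have hdim : finrank Ω (TS G (pc cΩ z)) = n' + 2 := hsm Ω _ hx0 hxG
  obtain ⟨A, hA⟩ : ∃ A : Fin M → Fin (n' + 2) → Ω, IsTB G (pc cΩ z) A := by
    let B := Module.finBasisOfFinrankEq Ω (TS G (pc cΩ z)) hdim
    refine ⟨fun l c => (B c).1 l, ?_, fun c => (B c).2⟩
    exact B.linearIndependent.map' (TS G (pc cΩ z)).subtype (Submodule.ker_subtype _)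
  obtain ⟨t, ht⟩ := alt_unique (L := Ω) A hA.1
    (fun i l => aeval (pc cΩ z) (pderiv l (G i))) (fun v hv => span_TB hA hdim v hv)
    (gv bΩ z) halt' hcontr'
  have ht0 : t ≠ 0 := by
    rintro rfl
    apply hne'
    funext J
    rw [ht J, zero_mul]
    rfl
  -- scaling of the first column
  refine ⟨fun l c => if c = 0 then t * A l c else A l c, ⟨?_, fun c => ?_⟩, ?_⟩
  · have h1 := hA.1.units_smul (fun c : Fin (n' + 2) => if c = 0 then Units.mk0 t ht0 else 1)
    convert h1 using 1
    funext c l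
    simp only [Pi.smul_apply']
    split_ifs with hc0
    · rfl
    · simp
  · by_cases hc0 : c = 0
    · have h1 := (TS G (pc cΩ z)).smul_mem t (hA.2 c)
      convert h1 using 1
      funext l
      simp [hc0]
    · have h1 := hA.2 c
      convert h1 using 1
      funext l
      simp [hc0]
  · funext J
    rw [ht J]
    have h1 : mv (fun l c => if c = 0 then t * A l c else A l c) J =
        (Matrix.updateCol (Matrix.of fun a b => A (J a) b) 0
          (t • fun a => A (J a) 0)).det := by
      unfold mv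
      congr 1
      ext a c
      by_cases hc0 : c = 0
      · subst hc0
        simp
      · simp [hc0]
    rw [h1, Matrix.det_updateCol_smul]
    congr 2
    ext a c
    by_cases hc0 : c = 0
    · subst hc0
      simp
    · simp [hc0]

end Pool.Agent.H432.EX
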