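import Mathlib
import Pool.Agent.H432.EX.Gau
import Pool.Graph.R_pool_sql_team_seeded_63374d34.N539.VR.Leaves
import Pool.Graph.R_pool_sql_team_seeded_63374d34.N830.VR.P_ROTH

/-!
Roth's theorem with weights.
-/

set_option autoImplicit false
set_option linter.unusedSectionVars false

namespace Pool.Agent.H432.EX

open NumberField IsDedekindDomain Height Module MvPolynomial Pool.Agent.N750 Pool.Agent.H432.RC
open Pool.Agent.H432.TC
open Pool.Agent.W180.OP (Pl av wt nrm le_nrm nrm_pos wt_nonneg exists_nrm nrm_nonneg)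

theorem nrm_swap {K : Type} [Field K] (f : AbsoluteValue K ℝ) (T : K) :
    nrm f ![T, 1] = nrm f ![1, T] := by
  unfold nrm
  have h1 : (fun i => f ((![T, 1] : Fin 2 → K) i)) =
      (fun i => f ((![1, T] : Fin 2 → K) i)) ∘ Equiv.swap (0 : Fin 2) 1 := by
    funext i
    fin_cases i <;> simp
  rw [h1]
  exact Equiv.iSup_comp (g := fun i => f ((![1, T] : Fin 2 → K) i)) (Equiv.swap (0 : Fin 2) 1)

/-- the two largest weights -/
theorem two_max {ν : ℕ} (μ : Fin ν → ℕ) (a1 : Fin ν) :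
    (∃ a2, a2 ≠ a1 ∧ (∀ a, a ≠ a1 → μ a ≤ μ a2)) ∨ ∀ a, a = a1 := by
  classical
  by_cases h : ∀ a, a = a1
  · exact Or.inr h
  · left
    push Not at h
    obtain ⟨a0, ha0⟩ := h
    obtain ⟨a2, ha2, hmax⟩ := Finset.exists_max_image (Finset.univ.erase a1) μ
      ⟨a0, Finset.mem_erase.2 ⟨ha0, Finset.mem_univ _⟩⟩
    exact ⟨a2, (Finset.mem_erase.1 ha2).1, fun a ha => hmax a
      (Finset.mem_erase.2 ⟨ha, Finset.mem_univ _⟩)⟩

/-- **Roth's theorem with weights** -/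
theorem roth_wt {K : Type} [Field K] [NumberField K] [IsGalois ℚ K] (hi : ∃ z : K, z ^ 2 = -1)
    {ν : ℕ} (b : Fin ν → K) (hb : Function.Injective b) (μ : Fin ν → ℕ) (B : ℝ) (hB : 0 ≤ B)
    (hB1 : ∀ a, (μ a : ℝ) ≤ B) (hB2 : ∀ a a', a ≠ a' → (μ a : ℝ) + μ a' ≤ B)
    (S : Finset (Pl K)) (ε : ℝ) (hε : 0 < ε) : ∃ C : ℝ, ∀ T : K, (∀ a, T ≠ b a) →
      ∑ p ∈ S, wt p * ∑ a, (μ a : ℝ) * (Real.log (nrm (av p) ![1, T]) -
        Real.log (av p (T - b a))) ≤ (B + ε) * logHeight ![1, T] + C := by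
  classical
  rcases Nat.eq_zero_or_pos ν with rfl | hν
  · refine ⟨0, fun T _ => ?_⟩
    simp only [Finset.univ_eq_empty, Finset.sum_empty, mul_zero, Finset.sum_const_zero]
    have := logHeight_nonneg ![1, T]
    positivity
  have hne : Nonempty (Fin ν) := ⟨⟨0, hν⟩⟩
  -- the absolute values
  obtain ⟨f, hf⟩ : ∃ f : Pl K → AbsoluteValue K ℝ, ∀ v, Pool.Agent.R405.Good v (f v) :=
    ⟨fun v => (Pool.Agent.R405.exists_good (K := K) v).choose,
      fun v => (Pool.Agent.R405.exists_good (K := K) v).choose_spec⟩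
  have hfe : ∀ v y, f v y = av v y := fun v y => (hf v).ext y
  obtain ⟨a1, ha1⟩ := Finite.exists_max (fun a => μ a)
  obtain ⟨μ2, hμ2, hμ2B, hμ12⟩ : ∃ μ2 : ℕ, (∀ a, a ≠ a1 → μ a ≤ μ2) ∧ (μ a1 : ℝ) + μ2 ≤ B ∧
      μ2 ≤ μ a1 := by
    rcases two_max μ a1 with ⟨a2, h1, h2⟩ | h
    · exact ⟨μ a2, h2, hB2 a1 a2 h1.symm, ha1 a2⟩
    · exact ⟨0, fun a ha => absurd (h a) ha, by simpa using hB1 a1, Nat.zero_le _⟩
  obtain ⟨Z, hZ⟩ := Pool.Agent.N830.VR.roth K K hi (Fin ν) b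
  set ε' : ℝ := ε / (μ2 + 1) with hε'
  have hε'p : 0 < ε' := by positivity
  obtain ⟨C1, hC10, hC1⟩ := hZ S f (fun v _ => hf v) ε' hε'p
  obtain ⟨C2, hC20, hC2⟩ := Pool.Agent.N539.VR.li1 K (b a1) S
  have hnear : ∀ p : Pl K, ∃ C : ℝ, 0 ≤ C ∧ ∀ t : K, (∀ i, t ≠ b i) → ∃ i,
      ∑ j, (μ j : ℝ) * (Real.log (nrm (av p) ![t, 1]) - Real.log (av p (t - b j))) ≤
        (μ i : ℝ) * max 0 (Real.log (nrm (av p) ![t, 1]) - Real.log (av p (t - b i))) + C :=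
    fun p => Pool.Agent.N539.VR.near K (av p) (Fin ν) b hb (fun j => (μ j : ℝ))
      (fun j => Nat.cast_nonneg _)
  choose C3 hC30 hC3 using hnear
  set Cm : ℝ := μ2 * C1 + (μ a1 - μ2) * C2 + ∑ p ∈ S, wt p * C3 p with hCm
  set Λ : K → ℝ := fun T => ∑ p ∈ S, wt p * ∑ a, (μ a : ℝ) * (Real.log (nrm (av p) ![1, T]) -
        Real.log (av p (T - b a))) with hΛ
  refine ⟨|Cm| + ∑ T ∈ Z, |Λ T|, fun T hT => ?_⟩
  have hH := logHeight_nonneg ![1, T]
  have hZs : 0 ≤ ∑ T ∈ Z, |Λ T| := Finset.sum_nonneg fun _ _ => abs_nonneg _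
  show Λ T ≤ _
  by_cases hTZ : T ∈ Z
  · have h1 : |Λ T| ≤ ∑ T ∈ Z, |Λ T| :=
      Finset.single_le_sum (f := fun T => |Λ T|) (fun _ _ => abs_nonneg _) hTZ
    have h2 := le_abs_self (Λ T)
    have h3 := abs_nonneg Cm
    have h4 : 0 ≤ (B + ε) * logHeight ![1, T] := by positivity
    linarith
  choose β hβ using fun p => hC3 p T hT
  set X : Pl K → Fin ν → ℝ := fun p a => max 0 (Real.log (nrm (av p) ![T, 1]) -
    Real.log (av p (T - b a))) with hX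
  have hX0 : ∀ p a, 0 ≤ X p a := fun p a => le_max_left _ _
  have h1 := hC1 T hTZ (fun i => hT i) β
  have h2 := hC2 T (hT a1)
  have h3 : Λ T ≤ ∑ p ∈ S, wt p * ((μ (β p) : ℝ) * X p (β p) + C3 p) := by
    refine Finset.sum_le_sum fun p _ => mul_le_mul_of_nonneg_left ?_ (wt_nonneg p)
    have := hβ p
    simp only [nrm_swap] at this ⊢
    simpa only [hX, nrm_swap] using this
  have h4 : ∑ p ∈ S, wt p * ((μ (β p) : ℝ) * X p (β p) + C3 p) ≤
      μ2 * ∑ p ∈ S, wt p * X p (β p) + ((μ a1 : ℝ) - μ2) * ∑ p ∈ S, wt p * X p a1 +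
        ∑ p ∈ S, wt p * C3 p := by
    rw [Finset.mul_sum, Finset.mul_sum, ← Finset.sum_add_distrib, ← Finset.sum_add_distrib]
    refine Finset.sum_le_sum fun p _ => ?_
    have e0 : (μ2 : ℝ) ≤ μ a1 := by exact_mod_cast hμ12
    have e1 : (μ (β p) : ℝ) * X p (β p) ≤ μ2 * X p (β p) + ((μ a1 : ℝ) - μ2) * X p a1 := by
      by_cases hβ1 : β p = a1
      · rw [hβ1]
        nlinarith [hX0 p a1]
      · have e2 : (μ (β p) : ℝ) ≤ μ2 := by exact_mod_cast hμ2 _ hβ1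
        have e3 := mul_le_mul_of_nonneg_right e2 (hX0 p (β p))
        have e4 : 0 ≤ ((μ a1 : ℝ) - μ2) * X p a1 := mul_nonneg (by linarith) (hX0 p a1)
        linarith
    have e5 := mul_le_mul_of_nonneg_left e1 (wt_nonneg p)
    nlinarith
  have h5 : ∑ p ∈ S, wt p * X p (β p) ≤ (2 + ε') * logHeight ![1, T] + C1 := by
    rw [← swap_ht]
    refine le_trans (le_of_eq ?_) h1
    refine Finset.sum_congr rfl fun p _ => ?_
    rw [hX]
    simp only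
    rw [hfe]
    rfl
  have h6 : ∑ p ∈ S, wt p * X p a1 ≤ logHeight ![1, T] + C2 := by
    rw [← swap_ht]
    exact h2
  have e0 : (μ2 : ℝ) ≤ μ a1 := by exact_mod_cast hμ12
  have h7 : (μ2 : ℝ) * ∑ p ∈ S, wt p * X p (β p) ≤
      μ2 * ((2 + ε') * logHeight ![1, T] + C1) := mul_le_mul_of_nonneg_left h5 (Nat.cast_nonneg _)
  have h8 : ((μ a1 : ℝ) - μ2) * ∑ p ∈ S, wt p * X p a1 ≤
      ((μ a1 : ℝ) - μ2) * (logHeight ![1, T] + C2) :=
    mul_le_mul_of_nonneg_left h6 (by linarith)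
  have h9 : (μ2 : ℝ) * ε' ≤ ε := by
    rw [hε', mul_div_assoc', div_le_iff₀ (by positivity)]
    nlinarith
  have h10 := le_abs_self Cm
  have h11 : (μ2 : ℝ) * ε' * logHeight ![1, T] ≤ ε * logHeight ![1, T] :=
    mul_le_mul_of_nonneg_right h9 hH
  have h12 : ((μ a1 : ℝ) + μ2) * logHeight ![1, T] ≤ B * logHeight ![1, T] :=
    mul_le_mul_of_nonneg_right hμ2B hH
  have h13 : Λ T ≤ ((μ a1 : ℝ) + μ2) * logHeight ![1, T] + μ2 * ε' * logHeight ![1, T] + Cm := by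
    rw [hCm]
    linarith
  linarith

end Pool.Agent.H432.EX
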