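import Mathlib
import Pool.Agent.H432.EX.Rw

/-!
The upper bound on a rational curve.
-/

set_option autoImplicit false
set_option linter.unusedSectionVars false

namespace Pool.Agent.H432.EX

open NumberField IsDedekindDomain Height Module MvPolynomial Pool.Agent.N750 Pool.Agent.H432.RC
open Pool.Agent.H432.TC
open Pool.Agent.W180.OP (Pl av wt nrm le_nrm nrm_pos wt_nonneg exists_nrm nrm_nonneg)

variable {M g q w n' d : ℕ}

theorem Meets_zero {k Ω : Type} [Field k] [Field Ω] [Algebra k Ω]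
    (F : Fin q → Fin w → MvPolynomial (Fin M) k) (c : Fin M → Fin (d + 1) → Ω) (z : Fin 2 → Ω) :
    Meets F c z 0 := ⟨0, by simp, fun i j y => by simp⟩

/-- the forms of the Gauss map in terms of `pc` -/
theorem GF.nz {k L : Type} [Field k] [Field L] [Algebra k L] {m : ℕ}
    {G : Fin g → MvPolynomial (Fin M) k} {c : Fin M → Fin (d + 1) → L}
    {b : (Fin (n' + 2) → Fin M) → Fin (m + 1) → L} (h : GF G c b) :
    NZ (fun (i : Fin (Fintype.card (Fin (n' + 2) → Fin M))) =>
      b ((Fintype.equivFin (Fin (n' + 2) → Fin M)).symm i)) := by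
  intro Ω _ _ z hz h0
  let _ : Algebra k Ω := ((algebraMap L Ω).comp (algebraMap k L)).toAlgebra
  have htow : IsScalarTower k L Ω := IsScalarTower.of_algebraMap_eq fun x => rfl
  obtain ⟨A, hA, hgv⟩ := h Ω z hz
  apply mv_ne A hA.1
  rw [← hgv]
  funext J
  have h1 := congrFun h0 (Fintype.equivFin (Fin (n' + 2) → Fin M) J)
  unfold pc at h1
  simp only [Equiv.symm_apply_apply] at h1
  exact h1

/-- the height of the Gauss map -/
theorem GF.ht {k K : Type} [Field k] [Field K] [NumberField K] [Algebra k K] {m : ℕ}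
    {G : Fin g → MvPolynomial (Fin M) k} (hsm : Sm (n' + 1) G) {c : Fin M → Fin (d + 1) → K}
    (hnz : NZ c) {b : (Fin (n' + 2) → Fin M) → Fin (m + 1) → K} (h : GF G c b)
    (z y : Fin 2 → K) (hzy : z 0 * y 1 ≠ z 1 * y 0) : ∃ C : ℝ, ∀ T : K,
      (∀ i, aeval (pc c (fun i => z i + T * y i)) (G i) = 0) →
      ∀ A, IsTB (p := n' + 2) G (pc c (fun i => z i + T * y i)) A →
      |logHeight (mv A) - m * logHeight ![1, T]| ≤ C := by
  obtain ⟨C, hC⟩ := h.nz.ht z y hzy
  refine ⟨C, fun T hG A hA => ?_⟩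
  have h1 := hC T
  obtain ⟨A', hA', hgv⟩ := h K (fun i => z i + T * y i) (lvec_ne z y hzy T)
  have hA'' : IsTB (p := n' + 2) G (pc c (fun i => z i + T * y i)) A' := hA'
  have hdim : finrank K (TS G (pc c (fun i => z i + T * y i))) = n' + 2 :=
    hsm K _ (hnz.ne _ (lvec_ne z y hzy T)) hG
  obtain ⟨t, ht, htA⟩ := mv_prop hdim hA'' hA
  have h2 : logHeight (mv A) = logHeight (pc (fun (i : Fin (Fintype.card (Fin (n' + 2) → Fin M))) =>
      b ((Fintype.equivFin (Fin (n' + 2) → Fin M)).symm i)) (fun i => z i + T * y i)) := by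
    rw [htA, logHeight_smul_eq_logHeight _ ht, ← hgv]
    exact (logHeight_comp_equiv (Fintype.equivFin (Fin (n' + 2) → Fin M)).symm
      (gv (fun J n => algebraMap K K (b J n)) (fun i => z i + T * y i))).symm
  rw [h2]
  exact h1

/-- the local bound of the proximity -/
theorem Cro.loc {k K : Type} [Field k] [Field K] [NumberField K] [Algebra k K]
    {F : Fin q → Fin w → MvPolynomial (Fin M) k} {δ : Fin q → ℕ}
    (hF : ∀ i j, (F i j).IsHomogeneous (δ i)) {φ : Fin M → Polynomial K}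
    (hφd : ∀ l, (φ l).natDegree ≤ d) (htop : Ideal.span (Set.range φ) = ⊤)
    {ν : ℕ} {b : Fin ν → K} {m : Fin ν → Fin q → ℕ} {Q : Fin q → Fin w → Polynomial K}
    (h : Cro F δ φ d ν b m Q) (p : Pl K) : ∃ C : ℝ, ∀ T : K,
      (∀ i, ∃ j, aeval (fun l => (φ l).eval T) (F i j) ≠ 0) →
      ∑ i, ((δ i : ℝ) * Real.log (nrm (av p) (fun l => (φ l).eval T)) -
        Real.log (nrm (av p) (fun j => aeval (fun l => (φ l).eval T) (F i j)))) ≤
      ∑ a, ((∑ i, m a i : ℕ) : ℝ) * (Real.log (nrm (av p) ![1, T]) -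
        Real.log (av p (T - b a))) + C := by
  classical
  obtain ⟨g1, hg1, hup⟩ := ev_up_vec φ d hφd
  have hQd := fun i => h.Qdeg hF hφd i
  have hq := fun i => ev_low (Q i) _ (hQd i).2.1 (h.top i) (hQd i).2.2
  choose g2 hg2 hlow using hq
  refine ⟨∑ i, ((δ i : ℝ) * Real.log (g1 p) + Real.log (g2 i p)), fun T hT => ?_⟩
  have hTb := h.ne T hT
  have hx0 : (fun l => (φ l).eval T) ≠ 0 := ev_ne_field φ htop T
  set x : Fin M → K := fun l => (φ l).eval T with hx
  set R := nrm (av p) ![1, T] with hR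
  have hR1 : 1 ≤ R := nrm2_pos p T
  have hterm : ∀ i, (δ i : ℝ) * Real.log (nrm (av p) x) -
      Real.log (nrm (av p) (fun j => aeval x (F i j))) ≤
      ∑ a, (m a i : ℝ) * (Real.log R - Real.log (av p (T - b a))) +
        ((δ i : ℝ) * Real.log (g1 p) + Real.log (g2 i p)) := by
    intro i
    have hnQ : 0 < nrm (av p) (fun j => (Q i j).eval T) :=
      nrm_pos (av p) (ev_ne_field (Q i) (h.top i) T)
    have e1 : (fun j => aeval x (F i j)) =
        fun j => (∏ a, (T - b a) ^ m a i) * (Q i j).eval T := by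
      funext j
      exact h.val T i j
    have e2 : nrm (av p) (fun j => aeval x (F i j)) =
        av p (∏ a, (T - b a) ^ m a i) * nrm (av p) (fun j => (Q i j).eval T) := by
      rw [e1]
      exact nrm_smul _ _ _
    have e3 : Real.log (av p (∏ a, (T - b a) ^ m a i)) =
        ∑ a, (m a i : ℝ) * Real.log (av p (T - b a)) := by
      rw [map_prod, Real.log_prod (fun a _ => by
        rw [map_pow]
        exact pow_ne_zero _ ((av p).pos_iff.2 (sub_ne_zero.2 (hTb a))).ne')]
      refine Finset.sum_congr rfl fun a _ => ?_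
      rw [map_pow, Real.log_pow]
    have e4 : av p (∏ a, (T - b a) ^ m a i) ≠ 0 :=
      ((av p).pos_iff.2 (Finset.prod_ne_zero_iff.2 fun a _ => pow_ne_zero _
        (sub_ne_zero.2 (hTb a)))).ne'
    rw [e2, Real.log_mul e4 hnQ.ne', e3]
    have f1 := Real.log_le_log (nrm_pos (av p) hx0) (hup T p)
    rw [Real.log_mul (by have := hg1.1 p; positivity) (by positivity), Real.log_pow] at f1
    have f2 := Real.log_le_log (by positivity) (hlow i T p)
    rw [Real.log_mul (by have := (hg2 i).1 p; positivity) hnQ.ne', Real.log_pow] at f2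
    have e5 : ((δ i * d - ∑ a, m a i : ℕ) : ℝ) = δ i * d - ∑ a, (m a i : ℝ) := by
      rw [Nat.cast_sub (hQd i).1]
      push_cast
      ring
    rw [e5] at f2
    have f3 : (δ i : ℝ) * Real.log (nrm (av p) x) ≤
        δ i * (Real.log (g1 p) + d * Real.log R) :=
      mul_le_mul_of_nonneg_left f1 (Nat.cast_nonneg _)
    have e6 : ∑ a, (m a i : ℝ) * (Real.log R - Real.log (av p (T - b a))) =
        (∑ a, (m a i : ℝ)) * Real.log R - ∑ a, (m a i : ℝ) *
          Real.log (av p (T - b a)) := by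
      rw [Finset.sum_mul, ← Finset.sum_sub_distrib]
      exact Finset.sum_congr rfl fun a _ => by ring
    rw [e6]
    nlinarith
  refine (Finset.sum_le_sum fun i _ => hterm i).trans (le_of_eq ?_)
  rw [Finset.sum_add_distrib]
  congr 1
  rw [Finset.sum_comm]
  refine Finset.sum_congr rfl fun a _ => ?_
  rw [← Finset.sum_mul]
  push_cast
  rfl

/-- **the upper bound**, parameters near a given point at infinity -/
theorem up_r {k K : Type} [Field k] [Field K] [NumberField K] [IsGalois ℚ K] [Algebra k K]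
    (hi : ∃ z : K, z ^ 2 = -1)
    {G : Fin g → MvPolynomial (Fin M) k} (hsm : Sm (n' + 1) G)
    {F : Fin q → Fin w → MvPolynomial (Fin M) k} {δ : Fin q → ℕ}
    (hF : ∀ i j, (F i j).IsHomogeneous (δ i)) {c : Fin M → Fin (d + 1) → K}
    (hc : CurveOK G F c) {m0 : ℕ} {β : (Fin (n' + 2) → Fin M) → Fin (m0 + 1) → K}
    (hβ : GF G c β) (r : ℕ) (hr : ∀ i, ∃ j, aeval (pc c ![(r : K), 1]) (F i j) ≠ 0) (B : ℝ)
    (hB : ∀ z y : Fin 2 → K, z 0 * y 1 ≠ z 1 * y 0 → ∀ e e' : ℕ, Meets F c z e →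
      Meets F c y e' → (m0 : ℝ) + e + e' ≤ B)
    (S : Finset (Pl K)) (ε : ℝ) (hε : 0 < ε) : ∃ C : ℝ, ∀ T : K,
      (∀ i, ∃ j, aeval (pc c ![(r : K) * T + 1, T]) (F i j) ≠ 0) →
      ∀ A, IsTB (p := n' + 2) G (pc c ![(r : K) * T + 1, T]) A →
      |logHeight (pc c ![(r : K) * T + 1, T]) - d * logHeight ![1, T]| ≤ C ∧
      prx S F δ (pc c ![(r : K) * T + 1, T]) + logHeight (mv A) ≤
        (B + ε) * logHeight ![1, T] + C := by
  classical
  have hnz : NZ c := fun Ω _ _ z hz => hc.nz Ω z hz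
  have hdet : (![1, 0] : Fin 2 → K) 0 * (![(r : K), 1] : Fin 2 → K) 1 ≠
      (![1, 0] : Fin 2 → K) 1 * (![(r : K), 1] : Fin 2 → K) 0 := by
    simp
  have hvec : ∀ T : K, (fun i => (![1, 0] : Fin 2 → K) i + T * (![(r : K), 1] : Fin 2 → K) i) =
      ![(r : K) * T + 1, T] := by
    intro T
    funext i
    fin_cases i
    · show 1 + T * (r : K) = (r : K) * T + 1
      ring
    · show 0 + T * 1 = T
      ring
  obtain ⟨C1, hC1⟩ := hnz.ht ![1, 0] ![(r : K), 1] hdet
  obtain ⟨C2, hC2⟩ := hβ.ht hsm hnz ![1, 0] ![(r : K), 1] hdet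
  simp only [hvec] at hC1 hC2
  obtain ⟨ν, b, m, Q, hcro⟩ := exists_cro (G := G) hF hc (r : K) hr
  set φ : Fin M → Polynomial K := cpol (r : K) c with hφ
  have hφd : ∀ l, (φ l).natDegree ≤ d := fun l => cpol_deg _ c l
  have htop : Ideal.span (Set.range φ) = ⊤ := hc.top _
  have hφT : ∀ T : K, (fun l => (φ l).eval T) = pc c ![(r : K) * T + 1, T] := by
    intro T
    funext l
    exact cpol_eval _ c T l
  choose C3 hC3 using fun p => Cro.loc hF hφd htop hcro p
  set μ : Fin ν → ℕ := fun a => ∑ i, m a i with hμ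
  have hpair : ∀ a a', a ≠ a' → (μ a : ℝ) + μ a' ≤ B - m0 := by
    intro a a' haa
    have h1 := hB ![(r : K) * b a + 1, b a] ![(r : K) * b a' + 1, b a'] (by
      show ((r : K) * b a + 1) * b a' ≠ b a * ((r : K) * b a' + 1)
      intro h0
      apply haa
      apply hcro.inj
      linear_combination -h0) _ _ (Cro.meets hF hcro a) (Cro.meets hF hcro a')
    linarith
  have hone : ∀ a, (μ a : ℝ) ≤ B - m0 := by
    intro a
    have h1 := hB ![(r : K) * b a + 1, b a] ![(r : K), 1] (by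
      show ((r : K) * b a + 1) * 1 ≠ b a * (r : K)
      intro h0
      apply one_ne_zero (α := K)
      linear_combination h0) _ _ (Cro.meets hF hcro a) (Meets_zero F c _)
    rw [Nat.cast_zero] at h1
    have h2 : (μ a : ℝ) = ((∑ i, m a i : ℕ) : ℝ) := rfl
    linarith
  have hzero : 0 ≤ B - m0 := by
    have h1 := hB _ _ hdet _ _ (Meets_zero F c _) (Meets_zero F c _)
    rw [Nat.cast_zero] at h1
    linarith
  obtain ⟨C4, hC4⟩ := roth_wt hi b hcro.inj μ (B - m0) hzero hone hpair S ε hε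
  refine ⟨max C1 (C2 + C4 + ∑ p ∈ S, wt p * C3 p), fun T hT A hA => ?_⟩
  refine ⟨(hC1 T).trans (le_max_left _ _), ?_⟩
  have hFx : ∀ i, ∃ j, aeval (fun l => (φ l).eval T) (F i j) ≠ 0 := by
    rw [hφT]
    exact hT
  have h1 := (abs_le.1 (hC2 T (fun i => hc.onX _ i) A hA)).2
  have h2 := hC4 T (hcro.ne T hFx)
  have h3 : prx S F δ (pc c ![(r : K) * T + 1, T]) ≤ ∑ p ∈ S, wt p * ∑ a, (μ a : ℝ) *
      (Real.log (nrm (av p) ![1, T]) - Real.log (av p (T - b a))) + ∑ p ∈ S, wt p * C3 p := by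
    unfold prx
    rw [← Finset.sum_add_distrib]
    refine Finset.sum_le_sum fun p _ => ?_
    rw [← mul_add]
    refine mul_le_mul_of_nonneg_left ?_ (wt_nonneg p)
    have h4 := hC3 p T hFx
    rw [hφT] at h4
    exact h4
  have h5 := le_max_right C1 (C2 + C4 + ∑ p ∈ S, wt p * C3 p)
  nlinarith

end Pool.Agent.H432.EX
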