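import Mathlib
import Pool.Agent.H432.EX.UpA

/-!
The lower bound on a rational curve.
-/

set_option autoImplicit false
set_option linter.unusedSectionVars false

namespace Pool.Agent.H432.EX

open NumberField IsDedekindDomain Height Module MvPolynomial Pool.Agent.N750 Pool.Agent.H432.RC
open Pool.Agent.H432.TC Filter
open Pool.Agent.W180.OP (Pl av wt nrm le_nrm nrm_pos wt_nonneg exists_nrm nrm_nonneg)

variable {M g q w n' d : ℕ}

section two

variable {K : Type} [Field K] [NumberField K]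

theorem ht_places {n : ℕ} (x : Fin n → K) (hx : x ≠ 0) (S : Finset (HeightOneSpectrum (𝓞 K)))
    (hS : ∀ v, v ∉ S → nrm (Pool.Agent.W180.OP.fv v) x = 1) :
    ∑ p ∈ (Finset.univ : Finset (InfinitePlace K)).disjSum S, wt p * Real.log (nrm (av p) x) =
      logHeight x := by
  rw [Pool.Agent.R405.logHeight_sum x hx S hS, Finset.sum_disjSum]
  congr 1
  refine Finset.sum_congr rfl fun v _ => ?_
  show (1 : ℝ) * _ = _
  rw [one_mul]
  rfl

/-- powers of two: the heights are supported at the places above 2 and ∞ -/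
theorem exists_S2 : ∃ S : Finset (HeightOneSpectrum (𝓞 K)), ∀ n : ℕ,
    (∑ p ∈ (Finset.univ : Finset (InfinitePlace K)).disjSum S,
      wt p * Real.log (nrm (av p) ![1, (2 : K) ^ n]) = logHeight ![1, (2 : K) ^ n]) ∧
    (∑ p ∈ (Finset.univ : Finset (InfinitePlace K)).disjSum S,
      wt p * (Real.log (nrm (av p) ![1, (2 : K) ^ n]) - Real.log (av p ((2 : K) ^ n))) =
        logHeight ![1, (2 : K) ^ n]) ∧
    (n : ℝ) * Real.log 2 ≤ logHeight ![1, (2 : K) ^ n] := by
  classical
  have h20 : (2 : K) ≠ 0 := two_ne_zero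
  have hfin := Pool.Agent.R405.nrm_finite (k := K) (fun _ : Fin 1 => (2 : K)) (by
    intro h
    exact h20 (congrFun h 0))
  refine ⟨hfin.toFinset, fun n => ?_⟩
  have hT0 : (2 : K) ^ n ≠ 0 := pow_ne_zero _ h20
  have hv : ∀ v, v ∉ hfin.toFinset → Pool.Agent.W180.OP.fv v (2 : K) = 1 := by
    intro v hv
    have h1 : nrm (Pool.Agent.W180.OP.fv v) (fun _ : Fin 1 => (2 : K)) = 1 := by
      by_contra h
      exact hv (by rw [Set.Finite.mem_toFinset]; exact h)
    have h2 := nrm_one (Sum.inr v : Pl K) (2 : K)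
    exact h2.symm.trans h1
  have hvT : ∀ v, v ∉ hfin.toFinset → Pool.Agent.W180.OP.fv v ((2 : K) ^ n) = 1 := by
    intro v h
    rw [map_pow, hv v h, one_pow]
  have h1 := ht_places (![1, (2 : K) ^ n]) (vec2_ne _) hfin.toFinset (by
    intro v h
    refine le_antisymm ?_ (nrm2_pos (Sum.inr v) _)
    exact nrm2_le (Sum.inr v) _ le_rfl (le_of_eq (hvT v h)))
  have h2 := ht_places (![1, ((2 : K) ^ n)⁻¹]) (vec2_ne _) hfin.toFinset (by
    intro v h
    refine le_antisymm ?_ (nrm2_pos (Sum.inr v) _)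
    refine nrm2_le (Sum.inr v) _ le_rfl (le_of_eq ?_)
    show Pool.Agent.W180.OP.fv v ((2 : K) ^ n)⁻¹ = 1
    rw [map_inv₀, hvT v h, inv_one])
  refine ⟨h1, ?_, ?_⟩
  · have h3 : logHeight ![1, ((2 : K) ^ n)⁻¹] = logHeight ![1, (2 : K) ^ n] := by
      have e1 : (![1, ((2 : K) ^ n)⁻¹] : Fin 2 → K) = ((2 : K) ^ n)⁻¹ • ![(2 : K) ^ n, 1] := by
        funext i
        fin_cases i
        · show (1 : K) = ((2 : K) ^ n)⁻¹ * (2 : K) ^ n
          field_simp
        · show ((2 : K) ^ n)⁻¹ = ((2 : K) ^ n)⁻¹ * 1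
          rw [mul_one]
      rw [e1, logHeight_smul_eq_logHeight _ (inv_ne_zero hT0), swap_ht]
    rw [← h3, ← h2]
    refine Finset.sum_congr rfl fun p _ => ?_
    congr 1
    have e1 : (![1, ((2 : K) ^ n)⁻¹] : Fin 2 → K) =
        fun i => ((2 : K) ^ n)⁻¹ * ![(2 : K) ^ n, 1] i := by
      funext i
      fin_cases i
      · show (1 : K) = ((2 : K) ^ n)⁻¹ * (2 : K) ^ n
        field_simp
      · show ((2 : K) ^ n)⁻¹ = ((2 : K) ^ n)⁻¹ * 1
        rw [mul_one]
    have e2 : 0 < av p ((2 : K) ^ n) := (av p).pos_iff.2 hT0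
    have e3 : 0 < nrm (av p) ![1, (2 : K) ^ n] := nrm_pos (av p) (vec2_ne _)
    rw [e1, nrm_smul, nrm_swap, map_inv₀, Real.log_mul (inv_ne_zero e2.ne') e3.ne', Real.log_inv]
    ring
  · rw [← h1, Finset.sum_disjSum]
    have h4 : 0 ≤ ∑ v ∈ hfin.toFinset, wt (Sum.inr v : Pl K) *
        Real.log (nrm (av (Sum.inr v)) ![1, (2 : K) ^ n]) := by
      refine Finset.sum_nonneg fun v _ => mul_nonneg (wt_nonneg _) ?_
      exact Real.log_nonneg (nrm2_pos (Sum.inr v) _)
    obtain ⟨w0⟩ : Nonempty (InfinitePlace K) := inferInstance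
    have h5 : wt (Sum.inl w0 : Pl K) * Real.log (nrm (av (Sum.inl w0)) ![1, (2 : K) ^ n]) ≤
        ∑ w : InfinitePlace K, wt (Sum.inl w : Pl K) *
          Real.log (nrm (av (Sum.inl w)) ![1, (2 : K) ^ n]) := by
      refine Finset.single_le_sum (f := fun w : InfinitePlace K => wt (Sum.inl w : Pl K) *
          Real.log (nrm (av (Sum.inl w)) ![1, (2 : K) ^ n])) (fun w _ => ?_) (Finset.mem_univ w0)
      exact mul_nonneg (wt_nonneg _) (Real.log_nonneg (nrm2_pos (Sum.inl w) _))
    have h6 : (n : ℝ) * Real.log 2 ≤ Real.log (nrm (av (Sum.inl w0 : Pl K)) ![1, (2 : K) ^ n]) := by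
      have e1 := nrm2_ge (Sum.inl w0 : Pl K) ((2 : K) ^ n)
      have e2 : av (Sum.inl w0 : Pl K) ((2 : K) ^ n) = 2 ^ n := by
        have e0 : w0 (2 : K) = 2 := by
          rw [← InfinitePlace.norm_embedding_eq w0 (2 : K), map_ofNat]
          exact Complex.norm_ofNat 2
        show w0 ((2 : K) ^ n) = 2 ^ n
        rw [map_pow, e0]
      rw [e2] at e1
      have e3 := Real.log_le_log (by positivity) e1
      rwa [Real.log_pow] at e3
    have h7 : (1 : ℝ) ≤ wt (Sum.inl w0 : Pl K) := by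
      show (1 : ℝ) ≤ (w0.mult : ℝ)
      exact_mod_cast w0.mult_pos
    have h8 : 0 ≤ (n : ℝ) * Real.log 2 := by
      have := Real.log_nonneg (by norm_num : (1 : ℝ) ≤ 2)
      positivity
    nlinarith

end two

/-- the local lower bound of the proximity -/
theorem low_loc {k K : Type} [Field k] [Field K] [NumberField K] [Algebra k K]
    {F : Fin q → Fin w → MvPolynomial (Fin M) k} {δ : Fin q → ℕ}
    (hF : ∀ i j, (F i j).IsHomogeneous (δ i)) {c : Fin M → Fin (d + 1) → K} (hc : NZ c)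
    (z y : Fin 2 → K) (hzy : z 0 * y 1 ≠ z 1 * y 0) (a a' : Fin q → ℕ)
    (ha : ∀ i j, Polynomial.X ^ a i ∣ aeval (lpol c z y) (F i j))
    (ha' : ∀ i j, Polynomial.X ^ a' i ∣ aeval (lpol c y z) (F i j))
    (hne : ∀ i, ∃ j, aeval (lpol c z y) (F i j) ≠ 0) (p : Pl K) : ∃ C : ℝ, ∀ T : K, T ≠ 0 →
      (∀ i, ∃ j, aeval (pc c (fun i => z i + T * y i)) (F i j) ≠ 0) →
      ∑ i, (((a i : ℕ) : ℝ) * (Real.log (nrm (av p) ![1, T]) - Real.log (av p T)) +
        ((a' i : ℕ) : ℝ) * Real.log (nrm (av p) ![1, T])) ≤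
      ∑ i, ((δ i : ℝ) * Real.log (nrm (av p) (pc c (fun i => z i + T * y i))) -
        Real.log (nrm (av p) (fun j => aeval (pc c (fun i => z i + T * y i)) (F i j)))) + C := by
  classical
  set ψ := lpol c z y with hψ
  have hψd : ∀ l, (ψ l).natDegree ≤ d := fun l => lpol_deg c z y l
  have htop := hc.top z y hzy
  have hlead := hc.lead z y (ne_of_det hzy).2
  choose R hR using ha
  have hRd : ∀ i, a i + a' i ≤ δ i * d ∧ ∀ j, (R i j).natDegree ≤ δ i * d - (a i + a' i) := by
    intro i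
    have hdeg : ∀ j, (aeval ψ (F i j)).natDegree ≤ δ i * d - a' i := fun j =>
      deg_rev (hF i j) c z y (a' i) (ha' i j)
    have hR' : ∀ j, R i j ≠ 0 → a i + (R i j).natDegree ≤ δ i * d - a' i := by
      intro j hj
      have h1 := hdeg j
      rw [hR i j, Polynomial.natDegree_mul (pow_ne_zero _ Polynomial.X_ne_zero) hj,
        Polynomial.natDegree_X_pow] at h1
      exact h1
    obtain ⟨j, hj⟩ := hne i
    have hRj : R i j ≠ 0 := by
      intro h
      apply hj
      rw [hR i j, h, mul_zero]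
    have h1 := hR' j hRj
    have h2 : a' i ≤ δ i * d := by
      have h3 : aeval (lpol c y z) (F i j) ≠ 0 := by
        intro h
        apply hj
        rw [hψ, form_rev (hF i j), h]
        simp
      have h4 := Polynomial.natDegree_le_of_dvd (ha' i j) h3
      rw [Polynomial.natDegree_X_pow] at h4
      exact h4.trans (aeval_deg (hF i j) _ (lpol_deg c y z))
    refine ⟨by omega, fun j' => ?_⟩
    by_cases h0 : R i j' = 0
    · rw [h0, Polynomial.natDegree_zero]
      exact Nat.zero_le _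
    · have := hR' j' h0
      omega
  obtain ⟨g1, hg1, hlow⟩ := ev_low ψ d hψd htop hlead
  choose g2 hg2 hup using fun i => ev_up_vec (R i) (δ i * d - (a i + a' i)) (hRd i).2
  refine ⟨∑ i, ((δ i : ℝ) * Real.log (g1 p) + Real.log (g2 i p)), fun T hT0 hT => ?_⟩
  rw [← Finset.sum_add_distrib]
  refine Finset.sum_le_sum fun i _ => ?_
  have hψT : (fun l => (ψ l).eval T) = pc c (fun i => z i + T * y i) :=
    funext fun l => lpol_eval c z y T l
  have hx0 : pc c (fun i => z i + T * y i) ≠ 0 := hc.ne _ (lvec_ne z y hzy T)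
  set x := pc c (fun i => z i + T * y i) with hx
  set N := nrm (av p) ![1, T] with hN
  have hN1 : 1 ≤ N := nrm2_pos p T
  have e1 : (fun j => aeval x (F i j)) = fun j => T ^ a i * (R i j).eval T := by
    funext j
    rw [hx, ← form_eval, ← hψ, hR i j, Polynomial.eval_mul, Polynomial.eval_pow,
      Polynomial.eval_X]
  have hRT : (fun j => (R i j).eval T) ≠ 0 := by
    obtain ⟨j, hj⟩ := hT i
    intro h
    apply hj
    have h1 : aeval x (F i j) = T ^ a i * (R i j).eval T := congrFun e1 j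
    have h2 : (R i j).eval T = 0 := congrFun h j
    rw [h1, h2, mul_zero]
  have hTa : 0 < av p T := (av p).pos_iff.2 hT0
  have e2 : Real.log (nrm (av p) (fun j => aeval x (F i j))) = a i * Real.log (av p T) +
      Real.log (nrm (av p) fun j => (R i j).eval T) := by
    rw [e1, nrm_smul, map_pow, Real.log_mul (by positivity) (nrm_pos (av p) hRT).ne',
      Real.log_pow]
  have f1 := Real.log_le_log (by positivity) (hlow T p)
  rw [hψT] at f1
  rw [Real.log_mul (by have := hg1.1 p; positivity) (nrm_pos (av p) hx0).ne', Real.log_pow] at f1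
  have f2 := Real.log_le_log (nrm_pos (av p) hRT) (hup i T p)
  rw [Real.log_mul (by have := (hg2 i).1 p; positivity) (by positivity), Real.log_pow] at f2
  have e5 : ((δ i * d - (a i + a' i) : ℕ) : ℝ) = δ i * d - (a i + a' i) := by
    rw [Nat.cast_sub (hRd i).1]
    push_cast
    ring
  rw [e5] at f2
  rw [e2]
  have f3 : (δ i : ℝ) * ((d : ℝ) * Real.log N) ≤
      δ i * (Real.log (g1 p) + Real.log (nrm (av p) x)) :=
    mul_le_mul_of_nonneg_left f1 (Nat.cast_nonneg _)
  nlinarith

/-- **the lower bound** -/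
theorem low_all {k K : Type} [Field k] [Field K] [NumberField K] [Algebra k K]
    {G : Fin g → MvPolynomial (Fin M) k} (hsm : Sm (n' + 1) G)
    {F : Fin q → Fin w → MvPolynomial (Fin M) k} {δ : Fin q → ℕ}
    (hF : ∀ i j, (F i j).IsHomogeneous (δ i)) {c : Fin M → Fin (d + 1) → K} (hnz : NZ c)
    (honX : ∀ (z : Fin 2 → K) (i : Fin g), aeval (pc c z) (G i) = 0)
    {m0 : ℕ} {β : (Fin (n' + 2) → Fin M) → Fin (m0 + 1) → K} (hβ : GF G c β) (α : ℝ)
    (z y : Fin 2 → K) (hzy : z 0 * y 1 ≠ z 1 * y 0) (e e' : ℕ) (he : Meets F c z e)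
    (he' : Meets F c y e') (hne : ∀ i, ∃ j, aeval (lpol c z y) (F i j) ≠ 0)
    (hall : ∀ (S : Finset (HeightOneSpectrum (𝓞 K))) (ε : ℝ), 0 < ε → ∃ C : ℝ,
      ∀ s : Fin 2 → K, s ≠ 0 → (∀ i, ∃ j, aeval (pc c s) (F i j) ≠ 0) →
      ∀ A, IsTB (p := n' + 2) G (pc c s) A →
      prx ((Finset.univ : Finset (InfinitePlace K)).disjSum S) F δ (pc c s) + logHeight (mv A) ≤
        (n' + 2 + α + ε) * logHeight (pc c s) + C) :
    (m0 : ℝ) + e + e' ≤ (n' + 2 + α) * d := by
  classical
  obtain ⟨a, ha, hdvd⟩ := he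
  obtain ⟨a', ha', hdvd'⟩ := he'
  obtain ⟨S, hS⟩ := exists_S2 (K := K)
  obtain ⟨C1, hC1⟩ := hnz.ht z y hzy
  obtain ⟨C2, hC2⟩ := hβ.ht hsm hnz z y hzy
  choose C3 hC3 using fun p => low_loc hF hnz z y hzy a a' (fun i j => hdvd i j y)
    (fun i j => hdvd' i j z) hne p
  set S' : Finset (Pl K) := (Finset.univ : Finset (InfinitePlace K)).disjSum S with hS'
  set H : ℕ → ℝ := fun n => logHeight ![1, (2 : K) ^ n] with hH
  have hHtop : Tendsto H atTop atTop := by
    refine tendsto_atTop_mono (fun n => (hS n).2.2) ?_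
    exact Tendsto.atTop_mul_const (Real.log_pos (by norm_num)) tendsto_natCast_atTop_atTop
  -- the points outside of the divisor
  have hgood : ∀ᶠ n : ℕ in atTop, ∀ i, ∃ j,
      aeval (pc c (fun i => z i + (2 : K) ^ n * y i)) (F i j) ≠ 0 := by
    rw [eventually_all]
    intro i
    obtain ⟨j, hj⟩ := hne i
    have hinj : Function.Injective (fun n : ℕ => (2 : K) ^ n) := by
      intro n n' h
      have h1 : (2 : K) ^ n = (2 : K) ^ n' := h
      have h2 : ((2 ^ n : ℕ) : K) = ((2 ^ n' : ℕ) : K) := by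
        push_cast
        exact h1
      exact Nat.pow_right_injective (le_refl 2) (Nat.cast_injective h2)
    have hfin : {n : ℕ | (aeval (lpol c z y) (F i j)).eval ((2 : K) ^ n) = 0}.Finite := by
      have h1 : {x : K | (aeval (lpol c z y) (F i j)).IsRoot x}.Finite :=
        Polynomial.finite_setOfPred_isRoot hj
      exact h1.preimage hinj.injOn
    have h1 := hfin.compl_mem_cofinite
    rw [Nat.cofinite_eq_atTop] at h1
    filter_upwards [h1] with n hn
    refine ⟨j, fun h => hn ?_⟩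
    show (aeval (lpol c z y) (F i j)).eval ((2 : K) ^ n) = 0
    rw [form_eval]
    exact h
  refine le_of_forall_pos_le_add fun η hη => ?_
  set ε : ℝ := η / (d + 1) with hε
  have hεp : 0 < ε := by positivity
  obtain ⟨C4, hC4⟩ := hall S ε hεp
  -- the inequality for the points
  set Cs : ℝ := |C4| + |n' + 2 + α + ε| * |C1| + |C2| + ∑ p ∈ S', wt p * |C3 p| with hCs
  have hineq : ∀ᶠ n : ℕ in atTop, ((m0 : ℝ) + e + e' - (n' + 2 + α + ε) * d) * H n ≤ Cs := by
    filter_upwards [hgood] with n hn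
    set T : K := (2 : K) ^ n with hT
    have hT0 : T ≠ 0 := pow_ne_zero _ two_ne_zero
    have hs0 : (fun i => z i + T * y i) ≠ 0 := lvec_ne z y hzy T
    obtain ⟨A, hA, -⟩ := hβ K (fun i => z i + T * y i) hs0
    have hA' : IsTB (p := n' + 2) G (pc c (fun i => z i + T * y i)) A := hA
    have h1 := hC4 _ hs0 hn A hA'
    have h2 := hC1 T
    have h3 := hC2 T (fun i => honX _ i) A hA'
    have h4 : (e : ℝ) * H n + e' * H n ≤ prx S' F δ (pc c (fun i => z i + T * y i)) +
        ∑ p ∈ S', wt p * |C3 p| := by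
      have h5 : (e : ℝ) * H n + e' * H n = ∑ p ∈ S', wt p *
          ∑ i, (((a i : ℕ) : ℝ) * (Real.log (nrm (av p) ![1, T]) - Real.log (av p T)) +
          ((a' i : ℕ) : ℝ) * Real.log (nrm (av p) ![1, T])) := by
        simp only [Finset.sum_add_distrib, ← Finset.sum_mul, mul_add]
        have e1 : ∑ p ∈ S', wt p * ((∑ i, (a i : ℝ)) * (Real.log (nrm (av p) ![1, T]) -
            Real.log (av p T))) = (∑ i, (a i : ℝ)) * ∑ p ∈ S', wt p *
              (Real.log (nrm (av p) ![1, T]) - Real.log (av p T)) := by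
          rw [Finset.mul_sum]
          exact Finset.sum_congr rfl fun p _ => by ring
        have e2 : ∑ p ∈ S', wt p * ((∑ i, (a' i : ℝ)) * Real.log (nrm (av p) ![1, T])) =
            (∑ i, (a' i : ℝ)) * ∑ p ∈ S', wt p * Real.log (nrm (av p) ![1, T]) := by
          rw [Finset.mul_sum]
          exact Finset.sum_congr rfl fun p _ => by ring
        rw [e1, e2, hT, (hS n).1, (hS n).2.1, ← ha, ← ha']
        push_cast
        ring
      rw [h5]
      unfold prx
      rw [← Finset.sum_add_distrib]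
      refine Finset.sum_le_sum fun p _ => ?_
      rw [← mul_add]
      refine mul_le_mul_of_nonneg_left ?_ (wt_nonneg p)
      have h6 := hC3 p T hT0 hn
      have h7 := le_abs_self (C3 p)
      linarith
    have h8 : (n' + 2 + α + ε) * (logHeight (pc c (fun i => z i + T * y i)) - d * H n) ≤
        |n' + 2 + α + ε| * |C1| := by
      refine (le_abs_self _).trans ?_
      rw [abs_mul]
      exact mul_le_mul_of_nonneg_left (h2.trans (le_abs_self _)) (abs_nonneg _)
    have h9 := (abs_le.1 h3).1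
    have h10 := le_abs_self C2
    have h11 := le_abs_self C4
    have h12 : logHeight (![1, T] : Fin 2 → K) = H n := rfl
    rw [h12] at h9
    rw [hCs]
    nlinarith
  have hfinal : (m0 : ℝ) + e + e' - (n' + 2 + α + ε) * d ≤ 0 := by
    by_contra hcon
    push Not at hcon
    have h1 : Tendsto (fun n => ((m0 : ℝ) + e + e' - (n' + 2 + α + ε) * d) * H n) atTop atTop :=
      hHtop.const_mul_atTop hcon
    obtain ⟨n, hn1, hn2⟩ := (hineq.and (h1.eventually_gt_atTop Cs)).exists
    linarith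
  have h1 : ε * d ≤ η := by
    rw [hε, div_mul_eq_mul_div, div_le_iff₀ (by positivity)]
    nlinarith
  nlinarith

end Pool.Agent.H432.EX
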