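import Mathlib
import Pool.Agent.H432.EX.Low

/-!
The exact exponent on a rational curve.
-/

set_option autoImplicit false
set_option linter.unusedSectionVars false

namespace Pool.Agent.H432.EX

open NumberField IsDedekindDomain Height Module MvPolynomial Pool.Agent.N750 Pool.Agent.H432.RC
open Pool.Agent.H432.TC Filter
open Pool.Agent.W180.OP (Pl av wt nrm le_nrm nrm_pos wt_nonneg exists_nrm nrm_nonneg)

variable {M g q w n' d : ℕ}

theorem exists_indep {K : Type} [Field K] (z : Fin 2 → K) (hz : z ≠ 0) :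
    ∃ y : Fin 2 → K, z 0 * y 1 ≠ z 1 * y 0 := by
  by_cases h0 : z 0 = 0
  · refine ⟨![1, 0], fun h => hz ?_⟩
    funext i
    fin_cases i
    · exact h0
    · have h1 : z 0 * 0 = z 1 * 1 := h
      rw [mul_zero, mul_one] at h1
      exact h1.symm
  · refine ⟨![0, 1], fun h => h0 ?_⟩
    have h1 : z 0 * 1 = z 1 * 0 := h
    rw [mul_zero, mul_one] at h1
    exact h1

/-- extension of the field -/
theorem Meets.map {k K E : Type} [Field k] [Field K] [CharZero K] [Algebra k K] [Field E]
    [Algebra k E] [Algebra K E] [IsScalarTower k K E]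
    {F : Fin q → Fin w → MvPolynomial (Fin M) k} {δ : Fin q → ℕ}
    (hF : ∀ i j, (F i j).IsHomogeneous (δ i)) {c : Fin M → Fin (d + 1) → K} {z : Fin 2 → K}
    (hz : z ≠ 0) {e : ℕ} (h : Meets F c z e) :
    Meets F (fun l m => algebraMap K E (c l m)) (fun i => algebraMap K E (z i)) e := by
  have hE : CharZero E := charZero_of_injective_algebraMap (algebraMap K E).injective
  obtain ⟨a, ha, hdvd⟩ := h
  obtain ⟨y, hy⟩ := exists_indep z hz
  refine ⟨a, ha, fun i j x => ?_⟩
  refine dvd_dir (hF i j) _ _ (fun t => algebraMap K E (y t)) (by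
    intro h0
    apply hy
    apply (algebraMap K E).injective
    rw [map_mul, map_mul]
    exact h0) (a i) ?_ x
  have h1 := hdvd i j y
  have h2 : (aeval (lpol c z y) (F i j)).map (algebraMap K E) =
      aeval (lpol (fun l m => algebraMap K E (c l m)) (fun i => algebraMap K E (z i))
        (fun t => algebraMap K E (y t))) (F i j) := by
    have e2 := MvPolynomial.comp_aeval_apply (lpol c z y)
      ((Polynomial.mapAlgHom (IsScalarTower.toAlgHom k K E)) : Polynomial K →ₐ[k] Polynomial E)
      (F i j)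
    have e3 : (fun l => (Polynomial.mapAlgHom (IsScalarTower.toAlgHom k K E)) (lpol c z y l)) =
        lpol (fun l m => algebraMap K E (c l m)) (fun i => algebraMap K E (z i))
        (fun t => algebraMap K E (y t)) := by
      funext l
      exact lpol_map (algebraMap K E) c z y l
    rw [e3] at e2
    exact e2
  rw [← h2]
  have h3 := Polynomial.map_dvd (algebraMap K E) h1
  rwa [Polynomial.map_pow, Polynomial.map_X] at h3

/-- points of contact over a number field -/
theorem desc2 {k L : Type} [Field k] [Field L] [CharZero L] [Algebra k L]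
    {G : Fin g → MvPolynomial (Fin M) k}
    {F : Fin q → Fin w → MvPolynomial (Fin M) k} {δ : Fin q → ℕ}
    (hF : ∀ i j, (F i j).IsHomogeneous (δ i)) {c : Fin M → Fin (d + 1) → L}
    {E : Type} [Field E] [Algebra k E] [Algebra L E] [IsScalarTower k L E]
    [Algebra.IsAlgebraic L E]
    (hok : CurveOK G F (fun l m => algebraMap L E (c l m)))
    {Ω : Type} [Field Ω] [Algebra k Ω] [Algebra L Ω] [IsScalarTower k L Ω]
    {z y : Fin 2 → Ω} (hzy : z 0 * y 1 ≠ z 1 * y 0) {e e' : ℕ}
    (hz : Meets F (fun l m => algebraMap L Ω (c l m)) z e)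
    (hy : Meets F (fun l m => algebraMap L Ω (c l m)) y e') :
    ∃ z' y' : Fin 2 → E, z' 0 * y' 1 ≠ z' 1 * y' 0 ∧
      Meets F (fun l m => algebraMap L E (c l m)) z' e ∧
      Meets F (fun l m => algebraMap L E (c l m)) y' e' := by
  have hΩ : CharZero Ω := charZero_of_injective_algebraMap (algebraMap L Ω).injective
  let Ω' := AlgebraicClosure Ω
  have t1 : IsScalarTower L Ω Ω' := inferInstance
  have t2 : IsScalarTower k Ω Ω' := inferInstance
  let f : E →ₐ[L] Ω' := IsAlgClosed.lift
  let _ : Algebra E Ω' := f.toRingHom.toAlgebra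
  have t3 : IsScalarTower L E Ω' := IsScalarTower.of_algebraMap_eq fun x => (f.commutes x).symm
  have t4 : IsScalarTower k L Ω' := IsScalarTower.of_algebraMap_eq fun x => by
    rw [IsScalarTower.algebraMap_apply k Ω Ω', IsScalarTower.algebraMap_apply k L Ω,
      ← IsScalarTower.algebraMap_apply L Ω Ω']
  have t5 : IsScalarTower k E Ω' := IsScalarTower.of_algebraMap_eq fun x => by
    rw [IsScalarTower.algebraMap_apply k L Ω', IsScalarTower.algebraMap_apply k L E,
      ← IsScalarTower.algebraMap_apply L E Ω']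
  have hcE : (fun l m => algebraMap Ω Ω' (algebraMap L Ω (c l m))) =
      fun l m => algebraMap E Ω' (algebraMap L E (c l m)) := by
    funext l m
    rw [← IsScalarTower.algebraMap_apply L Ω Ω', ← IsScalarTower.algebraMap_apply L E Ω']
  obtain ⟨hz0, hy0⟩ := ne_of_det hzy
  have hz' := Meets.map (E := Ω') hF hz0 hz
  have hy' := Meets.map (E := Ω') hF hy0 hy
  rw [hcE] at hz' hy'
  have hinj := (algebraMap Ω Ω').injective
  have hne : ∀ x : Fin 2 → Ω, x ≠ 0 → (fun i => algebraMap Ω Ω' (x i)) ≠ 0 := by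
    intro x hx h
    apply hx
    funext i
    apply hinj
    rw [Pi.zero_apply, map_zero]
    exact congrFun h i
  have hdet : (fun i => algebraMap Ω Ω' (z i)) 0 * (fun i => algebraMap Ω Ω' (y i)) 1 ≠
      (fun i => algebraMap Ω Ω' (z i)) 1 * (fun i => algebraMap Ω Ω' (y i)) 0 := by
    intro h
    apply hzy
    apply hinj
    rw [map_mul, map_mul]
    exact h
  rcases Nat.eq_zero_or_pos e with rfl | he
  · rcases Nat.eq_zero_or_pos e' with rfl | he'
    · exact ⟨![1, 0], ![0, 1], by simp, Meets_zero _ _ _, Meets_zero _ _ _⟩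
    · obtain ⟨y1, u, hu, hyu, hm⟩ := Meets.descend hF hok (hne y hy0) he' hy'
      have hy1 : y1 ≠ 0 := by
        rintro rfl
        apply hne y hy0
        rw [hyu]
        funext i
        simp
      obtain ⟨z1, hz1⟩ := exists_indep y1 hy1
      refine ⟨z1, y1, fun h => hz1 ?_, Meets_zero _ _ _, hm⟩
      linear_combination -h
  · obtain ⟨z1, v, hv, hzv, hmz⟩ := Meets.descend hF hok (hne z hz0) he hz'
    have hz1 : z1 ≠ 0 := by
      rintro rfl
      apply hne z hz0
      rw [hzv]
      funext i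
      simp
    rcases Nat.eq_zero_or_pos e' with rfl | he'
    · obtain ⟨y1, hy1⟩ := exists_indep z1 hz1
      exact ⟨z1, y1, hy1, hmz, Meets_zero _ _ _⟩
    · obtain ⟨y1, u, hu, hyu, hmy⟩ := Meets.descend hF hok (hne y hy0) he' hy'
      refine ⟨z1, y1, fun h => hdet ?_, hmz, hmy⟩
      rw [hzv, hyu]
      have h1 := congrArg (algebraMap E Ω') h
      rw [map_mul, map_mul] at h1
      show v * algebraMap E Ω' (z1 0) * (u * algebraMap E Ω' (y1 1)) =
        v * algebraMap E Ω' (z1 1) * (u * algebraMap E Ω' (y1 0))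
      linear_combination v * u * h1

/-- the forms along a curve which is not contained in the divisor -/
theorem lpol_form_ne {k K : Type} [Field k] [Field K] [CharZero K] [Algebra k K]
    {P : MvPolynomial (Fin M) k} {e : ℕ} (hP : P.IsHomogeneous e) (c : Fin M → Fin (d + 1) → K)
    (z y s : Fin 2 → K) (hzy : z 0 * y 1 ≠ z 1 * y 0) (hs : aeval (pc c s) P ≠ 0) :
    aeval (lpol c z y) P ≠ 0 := by
  intro h0
  set D := z 0 * y 1 - z 1 * y 0 with hD
  have hD0 : D ≠ 0 := sub_ne_zero.2 hzy
  obtain ⟨α, β, hx⟩ : ∃ α β : K, s = fun i => α * z i + β * y i := by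
    refine ⟨(s 0 * y 1 - s 1 * y 0) / D, (z 0 * s 1 - z 1 * s 0) / D, ?_⟩
    funext i
    fin_cases i
    · show s 0 = (s 0 * y 1 - s 1 * y 0) / D * z 0 + (z 0 * s 1 - z 1 * s 0) / D * y 0
      field_simp
      rw [hD]
      ring
    · show s 1 = (s 0 * y 1 - s 1 * y 0) / D * z 1 + (z 0 * s 1 - z 1 * s 0) / D * y 1
      field_simp
      rw [hD]
      ring
  apply hs
  by_cases hα : α = 0
  · have h1 : s = fun i => β * y i := by
      rw [hx, hα]
      funext i
      ring
    rw [h1, pc_smul, RC.aeval_hom hP]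
    have h2 := aeval_top hP (lpol c z y) (lpol_deg c z y)
    rw [h0, Polynomial.coeff_zero] at h2
    have h3 : (fun l => (lpol c z y l).coeff d) = pc c y := funext fun l => lpol_coeff c z y l
    rw [h3] at h2
    rw [← h2, mul_zero]
  · have h1 : s = fun i => α * (fun i => z i + (β / α) * y i) i := by
      rw [hx]
      funext i
      field_simp
    rw [h1, pc_smul, RC.aeval_hom hP, ← form_eval, h0, Polynomial.eval_zero, mul_zero]

/-- **the exact exponent** -/
theorem crit {k L : Type} [Field k] [NumberField k] [Field L] [NumberField L] [Algebra k L]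
    {G : Fin g → MvPolynomial (Fin M) k} {e : Fin g → ℕ} (hG : ∀ i, (G i).IsHomogeneous (e i))
    (hsm : Sm (n' + 1) G)
    {F : Fin q → Fin w → MvPolynomial (Fin M) k} {δ : Fin q → ℕ}
    (hF : ∀ i j, (F i j).IsHomogeneous (δ i)) (hd0 : 1 ≤ d) {c : Fin M → Fin (d + 1) → L}
    (hc : RC0 G c) (hD : ∃ z : Fin 2 → L, z ≠ 0 ∧ ∀ i, ∃ j, aeval (pc c z) (F i j) ≠ 0)
    {m0 : ℕ} {β : (Fin (n' + 2) → Fin M) → Fin (m0 + 1) → L}
    (hβ : GF G c β) (α : ℝ) :
    (∀ (K : Type) [Field K] [NumberField K] [Algebra k K] [Algebra L K] [IsScalarTower k L K]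
      (S : Finset (HeightOneSpectrum (𝓞 K))) (ε : ℝ), 0 < ε → ∃ C : ℝ,
      ∀ s : Fin 2 → K, s ≠ 0 →
      (∀ i, ∃ j, aeval (pc (fun l m => algebraMap L K (c l m)) s) (F i j) ≠ 0) →
      ∀ A, IsTB (p := n' + 2) G (pc (fun l m => algebraMap L K (c l m)) s) A →
      prx ((Finset.univ : Finset (InfinitePlace K)).disjSum S) F δ
        (pc (fun l m => algebraMap L K (c l m)) s) + logHeight (mv A) ≤
        (n' + 2 + α + ε) * logHeight (pc (fun l m => algebraMap L K (c l m)) s) + C) ↔
    ∀ (Ω : Type) [Field Ω] [Algebra k Ω] [Algebra L Ω] [IsScalarTower k L Ω] (z y : Fin 2 → Ω),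
      z 0 * y 1 ≠ z 1 * y 0 → ∀ e e' : ℕ, Meets F (fun l m => algebraMap L Ω (c l m)) z e →
      Meets F (fun l m => algebraMap L Ω (c l m)) y e' → (m0 : ℝ) + e + e' ≤ (n' + 2 + α) * d := by
  classical
  obtain ⟨z0, hz0, hz0F⟩ := hD
  constructor
  · intro hall Ω _ _ _ _ z y hzy e e' he he'
    obtain ⟨E, hE1, hE2, hE3, hE4, hE5, hok⟩ := exists_E hF hc ⟨z0, hz0, hz0F⟩
    have halg : Algebra.IsAlgebraic L E := Algebra.IsAlgebraic.of_finite L E
    obtain ⟨z1, y1, h1, h2, h3⟩ := desc2 hF hok hzy he he'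
    refine low_all hsm hF (fun Ω _ _ z hz => hok.nz Ω z hz) (fun z i => hok.onX z i)
      (hβ.map (E := E)) α z1 y1 h1 e e' h2 h3 (fun i => ?_) (hall E)
    obtain ⟨j, hj⟩ := hz0F i
    refine ⟨j, lpol_form_ne (hF i j) _ z1 y1 (fun i => algebraMap L E (z0 i)) h1 ?_⟩
    rw [pc_map, aeval_am]
    exact (map_ne_zero _).2 hj
  · intro h K _ _ _ _ _ S ε hε
    have hcK : RC0 G (fun l m => algebraMap L K (c l m)) := by
      refine ⟨?_, ?_⟩
      · intro Ω _ _ z hz
        let _ : Algebra L Ω := ((algebraMap K Ω).comp (algebraMap L K)).toAlgebra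
        exact hc.nz Ω z hz
      · intro Ω _ _ _ _ z i
        let _ : Algebra L Ω := ((algebraMap K Ω).comp (algebraMap L K)).toAlgebra
        have htow : IsScalarTower k L Ω := IsScalarTower.of_algebraMap_eq fun x => by
          rw [IsScalarTower.algebraMap_apply k K Ω, IsScalarTower.algebraMap_apply k L K]
          rfl
        exact hc.onX Ω z i
    refine up_all hG hsm hF hd0 hcK ⟨fun i => algebraMap L K (z0 i), ?_, fun i => ?_⟩
      (hβ.map (E := K)) α ?_ _ ε hε
    · intro h0
      apply hz0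
      funext i
      apply (algebraMap L K).injective
      rw [Pi.zero_apply, map_zero]
      exact congrFun h0 i
    · obtain ⟨j, hj⟩ := hz0F i
      refine ⟨j, ?_⟩
      rw [pc_map, aeval_am]
      exact (map_ne_zero _).2 hj
    · intro E _ _ _ _ _ z y hzy e e' he he'
      let _ : Algebra L E := ((algebraMap K E).comp (algebraMap L K)).toAlgebra
      have htow : IsScalarTower k L E := IsScalarTower.of_algebraMap_eq fun x => by
        rw [IsScalarTower.algebraMap_apply k K E, IsScalarTower.algebraMap_apply k L K]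
        rfl
      exact h E z y hzy e e' he he'

end Pool.Agent.H432.EX
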