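import Mathlib
import Pool.Agent.H432.EX.Fin

/-!
The curves with a positive exponent lie in a proper closed subset.
-/

set_option autoImplicit false
set_option linter.unusedSectionVars false

namespace Pool.Agent.H432.EX

open NumberField IsDedekindDomain Height Module MvPolynomial Pool.Agent.N750 Pool.Agent.H432.RC
open Pool.Agent.H432.TC Filter
open Pool.Agent.W180.OP (Pl av wt nrm le_nrm nrm_pos wt_nonneg exists_nrm nrm_nonneg)

variable {M g q w n' d : ℕ}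

theorem exc {k : Type} [Field k] [NumberField k]
    (G : Fin g → MvPolynomial (Fin M) k) (e : Fin g → ℕ)
    (hG : ∀ i, (G i).IsHomogeneous (e i)) (hI : (Ideal.span (Set.range G)).IsPrime)
    (hsm : Sm (n' + 1) G) (F : Fin q → Fin w → MvPolynomial (Fin M) k) (δ : Fin q → ℕ)
    (hF : ∀ i j, (F i j).IsHomogeneous (δ i)) (hnc : NCD G F) (D : ℕ) :
    ∃ (mΦ : ℕ) (Φ : MvPolynomial (Fin M) k), Φ.IsHomogeneous mΦ ∧
      Φ ∉ Ideal.span (Set.range G) ∧
    ∀ (L : Type) [Field L] [NumberField L] [Algebra k L],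
    ∀ d ≤ D, ∀ (c : Fin M → Fin (d + 1) → L), RC0 G c → (∃ z, aeval (pc c z) Φ ≠ 0) →
      (∃ z : Fin 2 → L, z ≠ 0 ∧ ∀ i, ∃ j, aeval (pc c z) (F i j) ≠ 0) →
    ∀ (m0 : ℕ) (β : (Fin (n' + 2) → Fin M) → Fin (m0 + 1) → L), GF G c β →
    ∀ (Ω : Type) [Field Ω] [Algebra k Ω] [Algebra L Ω] [IsScalarTower k L Ω] (z y : Fin 2 → Ω),
      z 0 * y 1 ≠ z 1 * y 0 → ∀ e e' : ℕ, Meets F (fun l m => algebraMap L Ω (c l m)) z e →
      Meets F (fun l m => algebraMap L Ω (c l m)) y e' → (m0 : ℝ) + e + e' ≤ (n' + 2) * d := by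
  classical
  obtain ⟨mΦ, Φ, h1, h2, h3⟩ := main_ext G e hG hI hsm F δ hF hnc D
  refine ⟨mΦ, Φ, h1, h2, ?_⟩
  intro L _ _ _ d hd c hc hΦ hD m0 β hβ Ω _ _ _ _ z y hzy e e' he he'
  obtain ⟨z0, hz0, hz0F⟩ := hD
  obtain ⟨E, hE1, hE2, hE3, hE4, hE5, hok⟩ := exists_E hF hc ⟨z0, hz0, hz0F⟩
  have halg : Algebra.IsAlgebraic L E := Algebra.IsAlgebraic.of_finite L E
  obtain ⟨z1, y1, e1, e2, e3⟩ := desc2 hF hok hzy he he'
  have h4 := low_all hsm hF (fun Ω _ _ z hz => hok.nz Ω z hz) (fun z i => hok.onX z i)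
    (hβ.map (E := E)) 0 z1 y1 e1 e e' e2 e3 (fun i => by
      obtain ⟨j, hj⟩ := hz0F i
      refine ⟨j, lpol_form_ne (hF i j) _ z1 y1 (fun i => algebraMap L E (z0 i)) e1 ?_⟩
      rw [pc_map, aeval_am]
      exact (map_ne_zero _).2 hj) (fun S ε hε => by
      obtain ⟨C, hC0, hC⟩ := h3 E E ((Finset.univ : Finset (InfinitePlace E)).disjSum S) ε hε
      refine ⟨C * (1 + logHeight (cv (fun l m => algebraMap L E (c l m)))),
        fun s hs hsF A hA => ?_⟩
      have h5 := hC d hd (fun l m => algebraMap L E (c l m)) s hs hok (by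
        obtain ⟨z, hz⟩ := hΦ
        refine ⟨fun i => algebraMap L E (z i), ?_⟩
        rw [pc_map, aeval_am]
        exact (map_ne_zero _).2 hz) hsF A hA
      rw [add_zero]
      exact h5)
  rw [add_zero] at h4
  exact h4

end Pool.Agent.H432.EX
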